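import Mathlib

/-!
# Countable chains of neighbourhoods of zero in an abelian group

Abstract (topology free) part: a chain `W : ℕ → Set G` of symmetric sets with
`W (n+1) + W (n+1) ⊆ W n`, its core, and a compactness property.
-/

open Set Filter Topology Cardinal

universe u

namespace Pool.Agent.H80Pseudo

variable {G : Type*} [AddCommGroup G]

/-- A chain of symmetric sets halving each other. -/
structure Chn (W : ℕ → Set G) : Prop where
  zero_mem : ∀ n, (0 : G) ∈ W n
  neg_mem : ∀ n x, x ∈ W n → -x ∈ W n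
  add_mem : ∀ n x y, x ∈ W (n + 1) → y ∈ W (n + 1) → x + y ∈ W n

/-- Every sequence has a cluster point with respect to the chain. -/
def CptChn (W : ℕ → Set G) : Prop :=
  ∀ x : ℕ → G, ∃ a : G, ∀ n, ∃ᶠ k in atTop, x k - a ∈ W n

namespace Chn

variable {W : ℕ → Set G} (hW : Chn W)

include hW in
theorem succ_subset (n : ℕ) : W (n + 1) ⊆ W n := fun x hx => by
  simpa using hW.add_mem n x 0 hx (hW.zero_mem _)

include hW in
theorem anti {m n : ℕ} (h : m ≤ n) : W n ⊆ W m := by
  induction h with
  | refl => exact fun _ h => h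
  | step _ ih => exact (hW.succ_subset _).trans ih

include hW in
theorem sub_mem (n : ℕ) {x y : G} (hx : x ∈ W (n + 1)) (hy : y ∈ W (n + 1)) : x - y ∈ W n := by
  rw [sub_eq_add_neg]
  exact hW.add_mem n x (-y) hx (hW.neg_mem _ _ hy)

/-- The core of a chain. -/
def core {W : ℕ → Set G} (hW : Chn W) : AddSubgroup G where
  carrier := ⋂ n, W n
  zero_mem' := mem_iInter.2 hW.zero_mem
  add_mem' := fun {a b} ha hb => mem_iInter.2 fun n =>
    hW.add_mem n a b (mem_iInter.1 ha _) (mem_iInter.1 hb _)
  neg_mem' := fun {a} ha => mem_iInter.2 fun n => hW.neg_mem n a (mem_iInter.1 ha n)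

theorem mem_core {x : G} : x ∈ hW.core ↔ ∀ n, x ∈ W n := by
  change x ∈ ⋂ n, W n ↔ _
  exact mem_iInter

theorem core_subset (n : ℕ) {x : G} (hx : x ∈ hW.core) : x ∈ W n := hW.mem_core.1 hx n

theorem mem_core_of {x : G} (h : ∀ n, ∃ m ≥ n, x ∈ W m) : x ∈ hW.core := by
  rw [hW.mem_core]
  intro n
  obtain ⟨m, hm, hx⟩ := h n
  exact hW.anti hm hx

include hW in
theorem two_pow_smul_mem (n q : ℕ) {x : G} (hx : x ∈ W (n + q)) : ∀ m ≤ 2 ^ q, m • x ∈ W n := by
  induction q generalizing n with
  | zero =>
    intro m hm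
    rw [pow_zero] at hm
    interval_cases m
    · simpa using hW.zero_mem n
    · simpa using hx
  | succ q ih =>
    intro m hm
    have h1 := ih (n + 1) (by rw [add_right_comm]; exact hx)
    by_cases hm2 : m ≤ 2 ^ q
    · exact hW.succ_subset _ (h1 m hm2)
    · have e : m = (m - 2 ^ q) + 2 ^ q := by omega
      rw [e, add_smul]
      apply hW.add_mem
      · exact h1 _ (by rw [pow_succ] at hm; omega)
      · exact h1 _ le_rfl

include hW in
theorem smul_mem (n m : ℕ) {x : G} (hx : x ∈ W (n + m)) : m • x ∈ W n :=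
  hW.two_pow_smul_mem n m hx m (Nat.lt_two_pow_self).le

include hW in
/-- total boundedness -/
theorem totallyBounded (hc : CptChn W) (n : ℕ) : ∃ F : Finset G, ∀ g, ∃ a ∈ F, g - a ∈ W n := by
  classical
  by_contra hcon
  push Not at hcon
  -- choose a sequence
  have : ∀ F : Finset G, ∃ g, ∀ a ∈ F, g - a ∉ W n := hcon
  choose nxt hnxt using this
  -- a sequence with `x k ∉ x j + W n`, `j < k`
  obtain ⟨x, hx⟩ : ∃ x : ℕ → G, ∀ k, ∀ j < k, x k - x j ∉ W n := by
    let s : ℕ → Finset G := fun k => Nat.rec ∅ (fun _ F => insert (nxt F) F) k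
    have hs : ∀ k, s (k+1) = insert (nxt (s k)) (s k) := fun k => rfl
    refine ⟨fun k => nxt (s k), ?_⟩
    intro k j hjk
    apply hnxt (s k)
    have hmono : ∀ a b, a ≤ b → s a ⊆ s b := by
      intro a b hab
      induction hab with
      | refl => exact fun _ h => h
      | step _ ih => exact ih.trans (by rw [hs]; exact Finset.subset_insert _ _)
    apply hmono (j+1) k hjk
    rw [hs]
    exact Finset.mem_insert_self _ _
  obtain ⟨a, ha⟩ := hc x
  have h1 := ha (n+1)
  obtain ⟨j, hj⟩ := h1.exists
  obtain ⟨k, hk, hk'⟩ := (h1.and_eventually (eventually_gt_atTop j)).exists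
  apply hx k j hk'
  have : x k - x j = (x k - a) - (x j - a) := by abel
  rw [this]
  exact hW.sub_mem n hk hj

theorem mk_quotient_core_le {G : Type u} [AddCommGroup G] {W : ℕ → Set G} (hW : Chn W)
    (hc : CptChn W) : #(G ⧸ hW.core) ≤ Cardinal.continuum.{u} := by
  choose F hF using fun n => hW.totallyBounded hc n
  choose a ha ha' using fun (n : ℕ) (g : G) => hF n g
  -- code
  let code : G ⧸ hW.core → ((n : ℕ) → F n) := fun q n => ⟨a n q.out, ha n _⟩
  have hinj : Function.Injective code := by
    intro p q hpq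
    have : p.out - q.out ∈ hW.core := by
      rw [hW.mem_core]
      intro n
      have e := congrFun hpq (n+1)
      have e' : a (n+1) p.out = a (n+1) q.out := congrArg Subtype.val e
      have h1 := ha' (n+1) p.out
      have h2 := ha' (n+1) q.out
      rw [← e'] at h2
      have := hW.sub_mem n h1 h2
      rwa [sub_sub_sub_cancel_right] at this
    rw [← QuotientAddGroup.out_eq' p, ← QuotientAddGroup.out_eq' q]
    rw [QuotientAddGroup.eq]
    have := hW.core.neg_mem this
    rwa [neg_sub, sub_eq_neg_add] at this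
  refine (mk_le_of_injective hinj).trans ?_
  rw [mk_pi]
  calc Cardinal.prod (fun n => #(F n)) ≤ Cardinal.prod (fun _ : ℕ => Cardinal.aleph0.{u}) := by
        apply Cardinal.prod_le_prod
        intro n
        exact (Cardinal.lt_aleph0_of_finite _).le
    _ = Cardinal.continuum.{u} := by
        rw [Cardinal.prod_const]
        simp

include hW in
/-- A member of the chain is not covered by finitely many cosets of a subgroup of infinite index. -/
theorem exists_notMem_cosets (hc : CptChn W) (L : AddSubgroup G) (hL : ¬ Finite (G ⧸ L)) (n : ℕ)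
    (F : Finset G) : ∃ a ∈ W n, ∀ d ∈ F, a + d ∉ L := by
  classical
  by_contra hcon
  push Not at hcon
  apply hL
  obtain ⟨F', hF'⟩ := hW.totallyBounded hc n
  have hsurj : Function.Surjective
      (fun p : F' × F => (QuotientAddGroup.mk ((p.1 : G) - (p.2 : G)) : G ⧸ L)) := by
    intro q
    obtain ⟨g, rfl⟩ := QuotientAddGroup.mk_surjective q
    obtain ⟨a, ha, hga⟩ := hF' g
    obtain ⟨d, hd, hd'⟩ := hcon _ hga
    refine ⟨(⟨a, ha⟩, ⟨d, hd⟩), ?_⟩
    rw [QuotientAddGroup.eq]
    have : -(a - d) + g = g - a + d := by abel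
    change -(a - d) + g ∈ L
    rw [this]
    exact hd'
  exact Finite.of_surjective _ hsurj

include hW in
/-- **Perfect set lemma.**  If `L k` is an increasing sequence of closed subgroups of infinite index
then there are continuum many points pairwise different modulo all `L k`. -/
theorem exists_cantor_family (hc : CptChn W) (L : ℕ → AddSubgroup G) (hmono : Monotone L)
    (hL : ∀ k, ¬ Finite (G ⧸ L k))
    (hcl : ∀ k x, x ∉ L k → ∃ n, ∀ y ∈ W n, x + y ∉ L k) :
    ∃ x : (ℕ → Bool) → G, ∀ r r', r ≠ r' → ∀ k, x r - x r' ∉ L k := by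
  classical
  -- one step
  have step : ∀ (k : ℕ) (F : Finset G) (i : ℕ), ∃ a : G, ∃ i' : ℕ, i < i' ∧ a ∈ W (i + 3) ∧
      ∀ d ∈ F, ∀ y ∈ W i', a + d + y ∉ L k := by
    intro k F i
    obtain ⟨a, ha, had⟩ := hW.exists_notMem_cosets hc (L k) (hL k) (i + 3) F
    have h1 : ∀ d, ∃ n, d ∈ F → ∀ y ∈ W n, a + d + y ∉ L k := by
      intro d
      by_cases hd : d ∈ F
      · obtain ⟨n, hn⟩ := hcl k (a + d) (had d hd)
        exact ⟨n, fun _ => hn⟩
      · exact ⟨0, fun h => absurd h hd⟩
    choose n hn using h1
    refine ⟨a, max (i + 1) (F.sup n), by omega, ha, ?_⟩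
    intro d hd y hy
    apply hn d hd y
    exact hW.anti ((Finset.le_sup hd).trans (le_max_right _ _)) hy
  choose nxa nxi hlt hmem hav using step
  let st : ℕ → Finset G × ℕ := fun k => Nat.rec ({0}, 0)
    (fun k s => (s.1 ∪ (s.1.image (fun d => d + nxa k s.1 s.2) ∪
      s.1.image (fun d => d - nxa k s.1 s.2)), nxi k s.1 s.2)) k
  let F : ℕ → Finset G := fun k => (st k).1
  let i : ℕ → ℕ := fun k => (st k).2
  let a : ℕ → G := fun k => nxa k (F k) (i k)
  have hF0 : F 0 = {0} := rfl
  have hFs : ∀ k, F (k+1) = F k ∪ ((F k).image (fun d => d + a k) ∪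
      (F k).image (fun d => d - a k)) := fun k => rfl
  have his : ∀ k, i (k+1) = nxi k (F k) (i k) := fun k => rfl
  have hilt : ∀ k, i k < i (k+1) := fun k => by rw [his]; exact hlt k (F k) (i k)
  have ham : ∀ k, a k ∈ W (i k + 3) := fun k => hmem k (F k) (i k)
  have hav' : ∀ k, ∀ d ∈ F k, ∀ y ∈ W (i (k+1)), a k + d + y ∉ L k := fun k => by
    rw [his]; exact hav k (F k) (i k)
  -- partial sums
  let P : (ℕ → Bool) → ℕ → G := fun s n => ∑ j ∈ Finset.range n, if s j then a j else 0
  have hPs : ∀ s n, P s (n+1) = P s n + if s n then a n else 0 := fun s n =>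
    Finset.sum_range_succ _ _
  have hPF : ∀ s t n, P s n - P t n ∈ F n := by
    intro s t n
    induction n with
    | zero => simp [P, hF0]
    | succ n ih =>
      rw [hPs, hPs, hFs]
      simp only [Finset.mem_union, Finset.mem_image]
      by_cases h1 : s n = true <;> by_cases h2 : t n = true
      · left
        simpa [h1, h2] using ih
      · right; left
        refine ⟨_, ih, ?_⟩
        simp [h1, h2]; abel
      · right; right
        refine ⟨_, ih, ?_⟩
        simp [h1, h2]; abel
      · left
        simpa [h1, h2] using ih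
  have htail : ∀ (s : ℕ → Bool) (m k : ℕ), P s (k + m) - P s k ∈ W (i k + 2) := by
    intro s m
    induction m with
    | zero => intro k; simpa using hW.zero_mem _
    | succ m ih =>
      intro k
      have e : P s (k + (m+1)) - P s k = (if s k then a k else 0) + (P s (k + 1 + m) - P s (k+1)) := by
        rw [hPs, show k + (m+1) = k + 1 + m by omega]
        abel
      rw [e]
      apply hW.add_mem
      · split_ifs
        · exact ham k
        · exact hW.zero_mem _
      · apply hW.anti _ (ih (k+1))
        have := hilt k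
        omega
  -- limits
  choose X hX using fun s : ℕ → Bool => hc (P s)
  have hXk : ∀ s k, X s - P s k ∈ W (i k + 1) := by
    intro s k
    obtain ⟨n, hn, hkn⟩ := ((hX s (i k + 2)).and_eventually (eventually_ge_atTop k)).exists
    obtain ⟨m, rfl⟩ := Nat.exists_eq_add_of_le hkn
    have e : X s - P s k = (P s (k + m) - P s k) - (P s (k+m) - X s) := by abel
    rw [e]
    exact hW.sub_mem _ (htail s m k) hn
  let σ : (ℕ → Bool) → (ℕ → Bool) := fun r n => r (Nat.unpair n).1
  refine ⟨fun r => X (σ r), ?_⟩
  -- asymmetric version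
  have main : ∀ s t : ℕ → Bool, ∀ k, s k = true → t k = false → X s - X t ∉ L k := by
    intro s t k hs ht
    have h1 := hPF s t k
    have h2 : (X s - P s (k+1)) - (X t - P t (k+1)) ∈ W (i (k+1)) :=
      hW.sub_mem _ (hXk s (k+1)) (hXk t (k+1))
    have h3 := hav' k _ h1 _ h2
    have e : a k + (P s k - P t k) + ((X s - P s (k+1)) - (X t - P t (k+1))) = X s - X t := by
      rw [hPs, hPs, hs, ht]
      simp
      abel
    rwa [e] at h3
  intro r r' hrr k
  obtain ⟨m, hm⟩ := Function.ne_iff.1 hrr
  -- an index n ≥ k with unpair n = (m, _)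
  set n := Nat.pair m k with hn
  have hkn : k ≤ n := Nat.right_le_pair m k
  have hu : (Nat.unpair n).1 = m := by rw [hn, Nat.unpair_pair]
  intro hmem'
  have hmem'' : X (σ r) - X (σ r') ∈ L n := hmono hkn hmem'
  have e1 : σ r n = r m := by simp [σ, hu]
  have e2 : σ r' n = r' m := by simp [σ, hu]
  rcases hb : r m with _ | _
  · have hb' : r' m = true := by
      cases h : r' m
      · exact absurd (hb.trans h.symm) hm
      · rfl
    apply main (σ r') (σ r) n (e2.trans hb') (e1.trans hb)
    have := (L n).neg_mem hmem''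
    rwa [neg_sub] at this
  · have hb' : r' m = false := by
      cases h : r' m
      · rfl
      · exact absurd (hb.trans h.symm) hm
    exact main (σ r) (σ r') n (e1.trans hb) (e2.trans hb') hmem''

end Chn

end Pool.Agent.H80Pseudo
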