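import Mathlib

/-!
# Pseudocompact and selectively pseudocompact spaces
-/

open Topology Filter

namespace Pool.Agent.H80Pseudo

/-- A space is pseudocompact if every continuous real valued function on it is bounded. -/
def PseudocompactSp (X : Type*) [TopologicalSpace X] : Prop :=
  ∀ f : X → ℝ, Continuous f → ∃ C : ℝ, ∀ x, |f x| ≤ C

/-- A space `X` is selectively pseudocompact if for every sequence `U 0, U 1, …` of nonempty open
subsets one can choose points `x n ∈ U n` such that the sequence `x` has an accumulation point
`a ∈ X`: every neighbourhood of `a` contains `x n` for infinitely many `n`. -/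
def SelectivelyPseudocompactSp (X : Type*) [TopologicalSpace X] : Prop :=
  ∀ U : ℕ → Set X, (∀ n, IsOpen (U n)) → (∀ n, (U n).Nonempty) →
    ∃ x : ℕ → X, (∀ n, x n ∈ U n) ∧ ∃ a : X, ∀ V ∈ 𝓝 a, {n | x n ∈ V}.Infinite

end Pool.Agent.H80Pseudo
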