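import Mathlib
import Pool.Agent.Lib.H80Pseudo.Defs
import Pool.Agent.Lib.H80Pseudo.Chain

/-!
# Pseudocompact abelian topological groups and chains of neighbourhoods
-/

open Set Filter Topology Cardinal

universe u

namespace Pool.Agent.H80Pseudo

/-- In a pseudocompact completely regular space every sequence of nonempty open sets accumulates
somewhere. -/
theorem PseudocompactSp.exists_accumulation {X : Type*} [TopologicalSpace X]
    [CompletelyRegularSpace X] (hX : PseudocompactSp X) (O : ℕ → Set X) (hO : ∀ n, IsOpen (O n))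
    (hne : ∀ n, (O n).Nonempty) :
    ∃ a, ∀ V ∈ 𝓝 a, ∃ᶠ k in atTop, (O k ∩ V).Nonempty := by
  by_contra hcon
  push Not at hcon
  have hlf : LocallyFinite O := by
    intro a
    obtain ⟨V, hV, hfr⟩ := hcon a
    refine ⟨V, hV, ?_⟩
    rw [eventually_atTop] at hfr
    obtain ⟨N, hN⟩ := hfr
    refine (Set.finite_lt_nat N).subset ?_
    intro k hk
    by_contra hlt
    exact hk.ne_empty (hN k (not_lt.1 hlt))
  choose x hx using hne
  have := fun k => CompletelyRegularSpace.completely_regular_isOpen (x k) (O k) (hO k) (hx k)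
  choose f hfc hfx hfO using this
  let g : ℕ → X → ℝ := fun k y => k * (1 - (f k y : ℝ))
  have hgc : ∀ k, Continuous (g k) := fun k => by
    have := hfc k
    fun_prop
  have hg0 : ∀ k y, 0 ≤ g k y := fun k y => by
    have := (f k y).2.2
    exact mul_nonneg (Nat.cast_nonneg _) (by linarith)
  have hsupp : ∀ k, Function.support (g k) ⊆ O k := by
    intro k y hy
    by_contra hyO
    apply hy
    have := hfO k (show y ∈ (O k)ᶜ from hyO)
    simp [g, this]
  have hlf' : LocallyFinite fun k => Function.support (g k) := hlf.subset hsupp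
  have hcont : Continuous fun y => ∑ᶠ k, g k y := continuous_finsum hgc hlf'
  obtain ⟨C, hC⟩ := hX _ hcont
  obtain ⟨k, hk⟩ := exists_nat_gt C
  have h1 := hC (x k)
  have h2 : g k (x k) ≤ ∑ᶠ j, g j (x k) := by
    apply single_le_finsum k _ (fun j => hg0 j (x k))
    exact (hlf'.point_finite (x k))
  have h3 : g k (x k) = k := by simp [g, hfx k]
  rw [h3] at h2
  have := (le_abs_self _).trans h1
  linarith

section Group

variable {G : Type*} [AddCommGroup G] [TopologicalSpace G] [IsTopologicalAddGroup G]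

/-- Every topological abelian group is completely regular. -/
theorem completelyRegular_of_group : CompletelyRegularSpace G := by
  let _ : UniformSpace G := IsTopologicalAddGroup.rightUniformSpace G
  infer_instance

theorem PseudocompactSp.exists_accumulation' (hG : PseudocompactSp G) (O : ℕ → Set G)
    (hO : ∀ n, IsOpen (O n)) (hne : ∀ n, (O n).Nonempty) :
    ∃ a, ∀ V ∈ 𝓝 a, ∃ᶠ k in atTop, (O k ∩ V).Nonempty := by
  have := completelyRegular_of_group (G := G)
  exact hG.exists_accumulation O hO hne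

/-- chains below a given sequence of neighbourhoods of zero -/
theorem exists_chn (V : ℕ → Set G) (hV : ∀ n, V n ∈ 𝓝 (0 : G)) :
    ∃ W : ℕ → Set G, Chn W ∧ (∀ n, W n ∈ 𝓝 (0 : G)) ∧ ∀ n, W n ⊆ V n := by
  have step : ∀ (U : Set G) (V' : Set G), U ∈ 𝓝 (0 : G) → V' ∈ 𝓝 (0 : G) →
      ∃ W : Set G, W ∈ 𝓝 (0 : G) ∧ W ⊆ V' ∧ (∀ x ∈ W, -x ∈ W) ∧ (∀ x ∈ W, ∀ y ∈ W, x + y ∈ U) := by
    intro U V' hU hV'
    obtain ⟨W, hW, hWU⟩ := exists_nhds_zero_half hU
    refine ⟨(W ∩ V') ∩ (-(W ∩ V')), ?_, ?_, ?_, ?_⟩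
    · apply inter_mem (inter_mem hW hV')
      exact neg_mem_nhds_zero G (inter_mem hW hV')
    · exact fun x hx => hx.1.2
    · intro x hx
      refine ⟨hx.2, ?_⟩
      rw [Set.mem_neg, neg_neg]
      exact hx.1
    · intro x hx y hy
      exact hWU x hx.1.1 y hy.1.1
  choose! nx h1 h2 h3 h4 using step
  let W : ℕ → Set G := fun n => Nat.rec (nx univ (V 0)) (fun n U => nx U (V (n+1))) n
  have hWs : ∀ n, W (n+1) = nx (W n) (V (n+1)) := fun n => rfl
  have hW0 : W 0 = nx univ (V 0) := rfl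
  have hn : ∀ n, W n ∈ 𝓝 (0 : G) := by
    intro n
    induction n with
    | zero => exact h1 univ (V 0) univ_mem (hV 0)
    | succ n ih => exact h1 _ _ ih (hV _)
  refine ⟨W, ⟨fun n => mem_of_mem_nhds (hn n), ?_, ?_⟩, hn, ?_⟩
  · intro n
    cases n with
    | zero => exact h3 univ (V 0) univ_mem (hV 0)
    | succ n => exact h3 _ _ (hn n) (hV _)
  · intro n x y hx hy
    exact h4 _ _ (hn n) (hV (n+1)) x hx y hy
  · intro n
    cases n with
    | zero => exact h2 univ (V 0) univ_mem (hV 0)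
    | succ n => exact h2 _ _ (hn n) (hV _)

/-- Chains of neighbourhoods of zero in a pseudocompact group have the compactness property. -/
theorem PseudocompactSp.cptChn (hG : PseudocompactSp G) {W : ℕ → Set G} (hW : Chn W)
    (hWn : ∀ n, W n ∈ 𝓝 (0 : G)) : CptChn W := by
  intro x
  have hO : ∀ k, x k ∈ interior ((fun z => z - x k) ⁻¹' W k) := by
    intro k
    rw [mem_interior_iff_mem_nhds]
    apply (continuous_id.sub continuous_const).continuousAt.preimage_mem_nhds
    simpa using hWn k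
  obtain ⟨a, ha⟩ := hG.exists_accumulation' (fun k => interior ((fun z => z - x k) ⁻¹' W k))
    (fun k => isOpen_interior) (fun k => ⟨x k, hO k⟩)
  refine ⟨a, fun n => ?_⟩
  have hV : (fun z => z - a) ⁻¹' W (n+1) ∈ 𝓝 a := by
    apply (continuous_id.sub continuous_const).continuousAt.preimage_mem_nhds
    simpa using hWn (n+1)
  refine ((ha _ hV).and_eventually (eventually_ge_atTop (n+1))).mono ?_
  rintro k ⟨⟨z, hz1, hz2⟩, hk⟩
  have hz1'' : z ∈ (fun z => z - x k) ⁻¹' W k := interior_subset hz1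
  have hz1' : z - x k ∈ W (n+1) := hW.anti hk hz1''
  have hz2' : z - a ∈ W (n+1) := hz2
  have e : x k - a = (z - a) - (z - x k) := by abel
  rw [e]
  exact hW.sub_mem n hz2' hz1'

/-- In a pseudocompact group the chain topology is a quotient of the given one: `V + core` is a
chain neighbourhood. -/
theorem PseudocompactSp.exists_subset_add_core (hG : PseudocompactSp G) {W : ℕ → Set G}
    (hW : Chn W) (hWn : ∀ n, W n ∈ 𝓝 (0 : G)) {V : Set G} (hV : V ∈ 𝓝 (0 : G)) :
    ∃ n, ∀ x ∈ W n, ∃ t ∈ hW.core, x + t ∈ V := by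
  by_contra hcon
  push Not at hcon
  choose z hz hzV using hcon
  obtain ⟨V', hV', hVV⟩ := exists_nhds_half_neg hV
  -- open sets `z n + (V' ∩ W n)`
  have hO : ∀ k, z k ∈ interior ((fun y => y - z k) ⁻¹' (V' ∩ W k)) := by
    intro k
    rw [mem_interior_iff_mem_nhds]
    apply (continuous_id.sub continuous_const).continuousAt.preimage_mem_nhds
    simpa using ⟨hV', hWn k⟩
  obtain ⟨a, ha⟩ := hG.exists_accumulation'
    (fun k => interior ((fun y => y - z k) ⁻¹' (V' ∩ W k)))
    (fun k => isOpen_interior) (fun k => ⟨z k, hO k⟩)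
  have hacore : a ∈ hW.core := by
    rw [hW.mem_core]
    intro m
    have hU : (fun y => y - a) ⁻¹' W (m+2) ∈ 𝓝 a := by
      apply (continuous_id.sub continuous_const).continuousAt.preimage_mem_nhds
      simpa using hWn (m+2)
    obtain ⟨k, ⟨y, hy1, hy2⟩, hk⟩ := ((ha _ hU).and_eventually (eventually_ge_atTop (m+2))).exists
    have hy1' : y ∈ (fun y => y - z k) ⁻¹' (V' ∩ W k) := interior_subset hy1
    have h1 : y - z k ∈ W (m+2) := hW.anti hk hy1'.2
    have h2 : z k ∈ W (m+2) := hW.anti hk (hz k)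
    have h3 : y - a ∈ W (m+2) := hy2
    have h4 : (y - z k) + z k ∈ W (m+1) := hW.add_mem _ _ _ h1 h2
    have e : a = ((y - z k) + z k) - (y - a) := by abel
    rw [e]
    exact hW.sub_mem m h4 (hW.succ_subset _ h3)
  have hU : (fun y => y - a) ⁻¹' V' ∈ 𝓝 a := by
    apply (continuous_id.sub continuous_const).continuousAt.preimage_mem_nhds
    simpa using hV'
  obtain ⟨k, y, hy1, hy2⟩ := (ha _ hU).exists
  have hy1' : y ∈ (fun y => y - z k) ⁻¹' (V' ∩ W k) := interior_subset hy1
  have h1 : y - z k ∈ V' := hy1'.1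
  have h2 : y - a ∈ V' := hy2
  apply hzV k (-a) (hW.core.neg_mem hacore)
  have e : z k + -a = (y - a) - (y - z k) := by abel
  rw [e]
  exact hVV _ h2 _ h1

/-- **Baire type lemma.**  If a pseudocompact group is the union of countably many subgroups
`A n`, then some `A n` is `G_δ`-dense in the core of some chain of neighbourhoods. -/
theorem PseudocompactSp.exists_dense_layer (hG : PseudocompactSp G) (A : ℕ → AddSubgroup G)
    (hA : ∀ g, ∃ n, g ∈ A n) :
    ∃ n, ∃ W : ℕ → Set G, ∃ hW : Chn W, (∀ k, W k ∈ 𝓝 (0 : G)) ∧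
      ∀ V : ℕ → Set G, (∀ k, V k ∈ 𝓝 (0 : G)) → ∀ x ∈ hW.core,
        ∃ a ∈ A n, a ∈ hW.core ∧ ∀ k, a - x ∈ V k := by
  by_contra hcon
  push Not at hcon
  -- the basic step
  have step : ∀ (n : ℕ) (W : ℕ → Set G) (hW : Chn W) (_ : ∀ k, W k ∈ 𝓝 (0 : G)) (c : G),
      ∃ (W' : ℕ → Set G) (hW' : Chn W') (_ : ∀ k, W' k ∈ 𝓝 (0 : G)) (_ : ∀ k, W' k ⊆ W k) (c' : G),
        c' - c ∈ hW.core ∧ ∀ a ∈ A n, a - c' ∉ hW'.core := by
    intro n W hW hWn c
    by_cases hc : ∀ a ∈ A n, a - c ∉ hW.core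
    · exact ⟨W, hW, hWn, fun k => subset_rfl, c, by simp [hW.core.zero_mem], hc⟩
    · push Not at hc
      obtain ⟨a₀, ha₀, ha₀c⟩ := hc
      obtain ⟨V, hV, x, hx, hxV⟩ := hcon n W hW hWn
      obtain ⟨W', hW', hWn', hW'V⟩ := exists_chn (fun k => V k ∩ W k)
        (fun k => inter_mem (hV k) (hWn k))
      refine ⟨W', hW', hWn', fun k => (hW'V k).trans inter_subset_right, a₀ + x, ?_, ?_⟩
      · have e : a₀ + x - c = (a₀ - c) + x := by abel
        rw [e]
        exact hW.core.add_mem ha₀c hx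
      · intro a ha hmem
        have e : a - (a₀ + x) = (a - a₀) - x := by abel
        rw [e] at hmem
        have h1 : a - a₀ ∈ A n := (A n).sub_mem ha ha₀
        have h2 : (a - a₀) - x ∈ hW.core := by
          rw [hW.mem_core]
          exact fun k => (hW'V k (hW'.core_subset k hmem)).2
        have h3 : a - a₀ ∈ hW.core := by
          have := hW.core.add_mem h2 hx
          rwa [sub_add_cancel] at this
        obtain ⟨k, hk⟩ := hxV _ h1 h3
        exact hk (hW'V k (hW'.core_subset k hmem)).1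
  choose nW nhW nhWn nsub nc hnc hnA using step
  let T := {p : (ℕ → Set G) × G // Chn p.1 ∧ ∀ k, p.1 k ∈ 𝓝 (0 : G)}
  let st : ℕ → T := fun n => Nat.rec
    ⟨(fun _ => univ, 0), ⟨⟨fun _ => trivial, fun _ _ _ => trivial, fun _ _ _ _ _ => trivial⟩,
      fun _ => univ_mem⟩⟩
    (fun n s => ⟨(nW n s.1.1 s.2.1 s.2.2 s.1.2, nc n s.1.1 s.2.1 s.2.2 s.1.2),
      ⟨nhW n s.1.1 s.2.1 s.2.2 s.1.2, nhWn n s.1.1 s.2.1 s.2.2 s.1.2⟩⟩) n
  let W : ℕ → ℕ → Set G := fun n => (st n).1.1
  let c : ℕ → G := fun n => (st n).1.2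
  have hW : ∀ n, Chn (W n) := fun n => (st n).2.1
  have hWn : ∀ n k, W n k ∈ 𝓝 (0 : G) := fun n => (st n).2.2
  have hsub : ∀ n k, W (n+1) k ⊆ W n k := fun n => nsub n (W n) (hW n) (hWn n) (c n)
  have hc : ∀ n, c (n+1) - c n ∈ (hW n).core := fun n => hnc n (W n) (hW n) (hWn n) (c n)
  have hcA : ∀ n, ∀ a ∈ A n, a - c (n+1) ∉ (hW (n+1)).core :=
    fun n => hnA n (W n) (hW n) (hWn n) (c n)
  have hsub' : ∀ m n, m ≤ n → ∀ k, W n k ⊆ W m k := by
    intro m n hmn
    induction hmn with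
    | refl => exact fun k => subset_rfl
    | step _ ih => exact fun k => (hsub _ k).trans (ih k)
  have hcore : ∀ m n, m ≤ n → ∀ x ∈ (hW n).core, x ∈ (hW m).core := by
    intro m n hmn x hx
    rw [(hW m).mem_core]
    exact fun k => hsub' m n hmn k ((hW n).core_subset k hx)
  have hcc : ∀ n m, c (n + m) - c n ∈ (hW n).core := by
    intro n m
    induction m with
    | zero => simp [(hW n).core.zero_mem]
    | succ m ih =>
      have e : c (n + (m+1)) - c n = (c (n + m + 1) - c (n + m)) + (c (n+m) - c n) := by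
        rw [← add_assoc]; abel
      rw [e]
      exact (hW n).core.add_mem (hcore n (n+m) (by omega) _ (hc (n+m))) ih
  obtain ⟨Ω, hΩ, hΩn, hΩsub⟩ := exists_chn (fun k => ⋂ n ∈ Finset.range (k+1), W n k) (by
    intro k
    rw [Filter.biInter_finset_mem]
    exact fun n _ => hWn n k)
  have hΩW : ∀ n k, n ≤ k → Ω k ⊆ W n k := by
    intro n k hnk
    refine (hΩsub k).trans ?_
    exact biInter_subset_of_mem (Finset.mem_coe.2 (Finset.mem_range.2 (by omega)))
  obtain ⟨y, hy⟩ := hG.cptChn hΩ hΩn c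
  have hyc : ∀ n, y - c n ∈ (hW n).core := by
    intro n
    rw [(hW n).mem_core]
    intro m
    have h1 := (hy (max (m+1) n)).and_eventually (eventually_ge_atTop n)
    obtain ⟨k, hk1, hk2⟩ := h1.exists
    have h2 : c k - y ∈ W n (m+1) :=
      (hW n).anti (le_max_left _ _) (hΩW n _ (le_max_right _ _) hk1)
    obtain ⟨l, rfl⟩ := Nat.exists_eq_add_of_le hk2
    have h3 : c (n + l) - c n ∈ W n (m+1) := (hW n).core_subset _ (hcc n l)
    have e : y - c n = (c (n+l) - c n) - (c (n+l) - y) := by abel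
    rw [e]
    exact (hW n).sub_mem m h3 h2
  obtain ⟨n, hn⟩ := hA y
  exact hcA n y hn (hyc (n+1))

end Group

end Pool.Agent.H80Pseudo
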