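import Mathlib
import Pool.Agent.Lib.H80Pseudo.Top

/-!
# Adding a strongly independent family of characters to a pseudocompact group topology
-/

open Set Filter Topology Cardinal

universe u

namespace Pool.Agent.H80Pseudo

/-- The circle group. -/
abbrev Circ : Type := AddCircle (1 : ℝ)

/-- The coarsest topology finer than `t` making all `f α` continuous. -/
@[reducible] def joinTop {G : Type*} [AddCommGroup G] {I : Type*} (t : TopologicalSpace G) (f : I → G →+ Circ) :
    TopologicalSpace G :=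
  t ⊓ ⨅ α, TopologicalSpace.induced (f α) inferInstance

section

variable {G : Type*} [AddCommGroup G] {I : Type*}

theorem isTopologicalAddGroup_joinTop (t : TopologicalSpace G) (ht : @IsTopologicalAddGroup G t _)
    (f : I → G →+ Circ) : @IsTopologicalAddGroup G (joinTop t f) _ := by
  unfold joinTop
  have h2 : @IsTopologicalAddGroup G (⨅ α, TopologicalSpace.induced (f α) inferInstance) _ :=
    topologicalAddGroup_iInf fun α => topologicalAddGroup_induced (f α)
  exact @topologicalAddGroup_inf G _ t _ ht h2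

theorem continuous_joinTop (t : TopologicalSpace G) (f : I → G →+ Circ) (α : I) :
    @Continuous G Circ (joinTop t f) _ (f α) := by
  rw [continuous_iff_le_induced]
  exact inf_le_right.trans (iInf_le _ α)

theorem mem_nhds_joinTop [t : TopologicalSpace G] [IsTopologicalAddGroup G] (f : I → G →+ Circ)
    {x : G} {U : Set G} (hU : U ∈ @nhds G (joinTop t f) x) :
    ∃ V ∈ 𝓝 (0 : G), ∃ F : Finset I, ∃ ε > 0, ∀ z, z - x ∈ V → (∀ α ∈ F, ‖f α (z - x)‖ < ε) →
      z ∈ U := by
  classical
  rw [joinTop, nhds_inf, nhds_iInf, Filter.mem_inf_iff] at hU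
  obtain ⟨U₁, hU₁, U₂, hU₂, rfl⟩ := hU
  rw [Filter.mem_iInf'] at hU₂
  obtain ⟨J, hJ, V, hV, -, hU₂', -⟩ := hU₂
  have h1 : ∀ α, ∃ ε > 0, ∀ z, ‖f α (z - x)‖ < ε → z ∈ V α := by
    intro α
    have := hV α
    rw [nhds_induced, Filter.mem_comap] at this
    obtain ⟨O, hO, hOV⟩ := this
    obtain ⟨ε, hε, hball⟩ := Metric.mem_nhds_iff.1 hO
    refine ⟨ε, hε, fun z hz => hOV ?_⟩
    apply hball
    rw [Metric.mem_ball, dist_eq_norm, ← map_sub]
    exact hz
  choose ε hε hεV using h1
  refine ⟨(fun y => y + x) ⁻¹' U₁, ?_, hJ.toFinset, ?_⟩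
  · apply (continuous_id.add continuous_const).continuousAt.preimage_mem_nhds
    simpa using hU₁
  · obtain ⟨δ, hδ, hδε⟩ : ∃ δ > 0, ∀ α ∈ hJ.toFinset, δ ≤ ε α := by
      by_cases hne : (hJ.toFinset).Nonempty
      · refine ⟨hJ.toFinset.inf' hne ε, ?_, fun α hα => Finset.inf'_le _ hα⟩
        exact (Finset.lt_inf'_iff hne).2 fun α _ => hε α
      · exact ⟨1, one_pos, fun α hα => absurd ⟨α, hα⟩ hne⟩
    refine ⟨δ, hδ, fun z hz1 hz2 => ⟨?_, ?_⟩⟩
    · simpa using hz1
    · rw [hU₂']
      refine mem_iInter₂.2 fun α hα => ?_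
      have hα' : α ∈ hJ.toFinset := by simpa using hα
      exact hεV α z ((hz2 α hα').trans_le (hδε α hα'))

/-- Strong independence of a family of characters over a group topology. -/
def StrongIndep (t : TopologicalSpace G) (e : ℕ) (f : I → G →+ Circ) : Prop :=
  ∀ V : ℕ → Set G, (∀ k, V k ∈ @nhds G t 0) → ∀ A : Set I, A.Countable → ∀ v : I → Circ,
    (∀ α, e • v α = 0) → ∃ g, (∀ k, g ∈ V k) ∧ ∀ α ∈ A, f α g = v α

/-- **Join theorem.** -/
theorem PseudocompactSp.joinTop [t : TopologicalSpace G] [IsTopologicalAddGroup G]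
    (hG : PseudocompactSp G) (e : ℕ) (f : I → G →+ Circ) (he : ∀ α g, e • f α g = 0)
    (hSI : StrongIndep t e f) : @PseudocompactSp G (joinTop t f) := by
  classical
  intro h hcont
  by_contra hunb
  push Not at hunb
  -- the bad points
  choose x hx using fun k : ℕ => hunb (k : ℝ)
  have hnb : ∀ k : ℕ, {z | (k : ℝ) < |h z|} ∈ @nhds G (H80Pseudo.joinTop t f) (x k) := by
    intro k
    let _ := H80Pseudo.joinTop t f
    have hopen : IsOpen {z | (k : ℝ) < |h z|} := isOpen_lt continuous_const hcont.abs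
    exact hopen.mem_nhds (hx k)
  choose V hV F ε hε hVF using fun k => mem_nhds_joinTop f (hnb k)
  set A : Set I := ⋃ k, (F k : Set I) with hA
  have hAc : A.Countable := countable_iUnion fun k => (F k).countable_toSet
  have : Countable A := hAc.to_subtype
  -- convergent subsequence of the coordinates in A
  obtain ⟨y, φ, hφ, hy⟩ := CompactSpace.tendsto_subseq (fun k => fun α : A => f α (x k))
  rw [tendsto_pi_nhds] at hy
  have hey : ∀ α : A, e • y α = 0 := by
    intro α
    have h1 : Tendsto (fun k => e • f α (x (φ k))) atTop (𝓝 (e • y α)) := (hy α).const_smul e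
    simp only [he] at h1
    exact tendsto_nhds_unique h1 tendsto_const_nhds
  obtain ⟨W, hW, hWn, hWV⟩ := exists_chn (fun k => V (φ k)) (fun k => hV _)
  obtain ⟨x₀, hx₀⟩ := hG.cptChn hW hWn (fun k => x (φ k))
  obtain ⟨g, hgW, hgA⟩ := hSI W hWn A hAc
    (fun α => if hα : α ∈ A then y ⟨α, hα⟩ - f α x₀ else 0) (by
      intro α
      split_ifs with hα
      · rw [smul_sub, hey, he, sub_zero]
      · rw [smul_zero])
  set a := x₀ + g with ha
  have hfa : ∀ α : A, f α a = y α := by
    intro α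
    rw [ha, map_add, hgA α α.2, dif_pos α.2]
    simp
  -- continuity of h at a
  have hnb2 : {z | |h z| < |h a| + 1} ∈ @nhds G (H80Pseudo.joinTop t f) a := by
    let _ := H80Pseudo.joinTop t f
    have hopen : IsOpen {z | |h z| < |h a| + 1} := isOpen_lt hcont.abs continuous_const
    exact hopen.mem_nhds (by simp)
  obtain ⟨Va, hVa, Fa, εa, hεa, hVFa⟩ := mem_nhds_joinTop f hnb2
  obtain ⟨V₁, hV₁, hV₁V⟩ := exists_nhds_zero_half hVa
  obtain ⟨n₀, hn₀⟩ := hG.exists_subset_add_core hW hWn hV₁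
  have hev1 : ∀ᶠ k in atTop, ∀ α ∈ Fa, α ∈ A → ‖f α (x (φ k) - a)‖ < εa := by
    rw [Filter.eventually_all_finset]
    intro α _
    by_cases hα : α ∈ A
    · have h1 := hy ⟨α, hα⟩
      have h2 : Tendsto (fun k => f α (x (φ k)) - f α a) atTop (𝓝 0) := by
        have := h1.sub (tendsto_const_nhds (x := f α a))
        have h3 : y ⟨α, hα⟩ - f α a = 0 := by rw [← hfa ⟨α, hα⟩]; simp
        rwa [h3] at this
      have h4 := (tendsto_zero_iff_norm_tendsto_zero.1 h2).eventually (gt_mem_nhds hεa)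
      filter_upwards [h4] with k hk _
      rwa [map_sub]
    · exact Eventually.of_forall fun k hα' => absurd hα' hα
  obtain ⟨N, hN⟩ := exists_nat_ge (|h a| + 1)
  obtain ⟨k, ⟨hk1, hk2⟩, hk3⟩ :=
    (((hx₀ (n₀+1)).and_eventually hev1).and_eventually (eventually_ge_atTop N)).exists
  have hk4 : x (φ k) - a ∈ W n₀ := by
    have e1 : x (φ k) - a = (x (φ k) - x₀) - g := by rw [ha]; abel
    rw [e1]
    exact hW.sub_mem n₀ hk1 (hgW _)
  obtain ⟨t₀, ht₀, ht₀V⟩ := hn₀ _ hk4
  obtain ⟨t₁, ht₁, ht₁A⟩ := hSI (fun j => W j ∩ V₁) (fun j => inter_mem (hWn j) hV₁)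
    (A ∪ Fa) (hAc.union Fa.countable_toSet)
    (fun α => if α ∈ A then - f α t₀ else - f α t₀ - f α (x (φ k) - a)) (by
      intro α
      split_ifs with hα
      · rw [smul_neg, he, neg_zero]
      · rw [smul_sub, smul_neg, he, he]; simp)
  have ht₁core : t₁ ∈ hW.core := by
    rw [hW.mem_core]; exact fun j => (ht₁ j).1
  have ht₁V : t₁ ∈ V₁ := (ht₁ 0).2
  set z := x (φ k) + t₀ + t₁ with hz
  have hlow : ((φ k : ℕ) : ℝ) < |h z| := by
    apply hVF (φ k) z
    · apply hWV k
      have e1 : z - x (φ k) = t₀ + t₁ := by rw [hz]; abel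
      rw [e1]
      exact hW.core_subset k (hW.core.add_mem ht₀ ht₁core)
    · intro α hα
      have hαA : α ∈ A := mem_iUnion.2 ⟨_, hα⟩
      have e1 : z - x (φ k) = t₀ + t₁ := by rw [hz]; abel
      rw [e1, map_add, ht₁A α (Or.inl hαA), if_pos hαA]
      simpa using hε (φ k)
  have hupp : |h z| < |h a| + 1 := by
    apply hVFa z
    · have e1 : z - a = (x (φ k) - a + t₀) + t₁ := by rw [hz]; abel
      rw [e1]
      exact hV₁V _ ht₀V _ ht₁V
    · intro α hα
      have e1 : z - a = (x (φ k) - a) + t₀ + t₁ := by rw [hz]; abel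
      rw [e1, map_add, map_add, ht₁A α (Or.inr hα)]
      by_cases hαA : α ∈ A
      · rw [if_pos hαA, add_neg_cancel_right]
        exact hk2 α hα hαA
      · rw [if_neg hαA]
        have : f α (x (φ k) - a) + f α t₀ + (-f α t₀ - f α (x (φ k) - a)) = 0 := by abel
        rw [this, norm_zero]
        exact hεa
  have h5 : (N : ℝ) ≤ (φ k : ℕ) := by
    have := hφ.id_le k
    exact_mod_cast hk3.trans this
  linarith

end

end Pool.Agent.H80Pseudo
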