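import Mathlib
import Pool.Agent.Lib.H80Pseudo.Join

/-!
# Strongly independent families of characters with an extension property
-/

open Set Filter Topology Cardinal

universe u

namespace Pool.Agent.H80Pseudo

/-- Extension of homomorphisms into the circle. -/
theorem exists_extension {A B : Type*} [AddCommGroup A] [AddCommGroup B] (j : A →+ B)
    (hj : Function.Injective j) (g : A →+ Circ) : ∃ h : B →+ Circ, ∀ a, h (j a) = g a := by
  obtain ⟨h, hh⟩ := (Module.Baer.of_divisible Circ).extension_property_addMonoidHom j hj g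
  exact ⟨h, fun a => by rw [← hh]; rfl⟩

/-- A homomorphism on the free `ZMod e`-module with prescribed values. -/
theorem exists_hom_finsupp {κ : Type*} (e : ℕ) (c : κ → Circ) (hc : ∀ i, e • c i = 0) :
    ∃ h : (κ →₀ ZMod e) →+ Circ, ∀ i, h (Finsupp.single i 1) = c i := by
  have hz : ∀ i, (zmultiplesHom Circ (c i)) (e : ℤ) = 0 := by
    intro i
    rw [zmultiplesHom_apply, natCast_zsmul]
    exact hc i
  refine ⟨Finsupp.liftAddHom fun i => ZMod.lift e ⟨zmultiplesHom Circ (c i), hz i⟩, fun i => ?_⟩
  rw [Finsupp.liftAddHom_apply_single]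
  have := ZMod.lift_coe e ⟨zmultiplesHom Circ (c i), hz i⟩ 1
  simpa using this

section Card

theorem mk_fun_nat_le {α : Type u} (h : #α ≤ Cardinal.continuum.{u}) :
    #(ℕ → α) ≤ Cardinal.continuum.{u} := by
  have h1 : #(ℕ → α) = #α ^ (Cardinal.aleph0.{u}) := by
    simp
  rw [h1]
  calc #α ^ (Cardinal.aleph0.{u}) ≤ Cardinal.continuum.{u} ^ (Cardinal.aleph0.{u}) :=
        Cardinal.power_le_power_right h
    _ = _ := Cardinal.continuum_power_aleph0

theorem mk_prod_le {α β : Type u} (h : #α ≤ Cardinal.continuum.{u})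
    (h' : #β ≤ Cardinal.continuum.{u}) : #(α × β) ≤ Cardinal.continuum.{u} := by
  rw [Cardinal.mk_prod, lift_id, lift_id]
  calc #α * #β ≤ Cardinal.continuum.{u} * Cardinal.continuum.{u} := mul_le_mul' h h'
    _ = _ := Cardinal.continuum_mul_self

theorem mk_ulift_le {α : Type} (h : #α ≤ Cardinal.continuum) :
    #(ULift.{u} α) ≤ Cardinal.continuum.{u} := by
  rw [Cardinal.mk_uLift]
  rw [← Cardinal.lift_continuum.{u, 0}]
  exact Cardinal.lift_le.2 h

theorem mk_circ_le : #Circ ≤ Cardinal.continuum := by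
  have : Function.Surjective (fun x : ℝ => (x : Circ)) := QuotientAddGroup.mk_surjective
  refine (Cardinal.mk_le_of_surjective this).trans ?_
  rw [Cardinal.mk_real]

theorem mk_prod_le' {α : Type u} {β : Type} (h : #α ≤ Cardinal.continuum.{u})
    (h' : #β ≤ Cardinal.continuum) : #(α × β) ≤ Cardinal.continuum.{u} := by
  rw [Cardinal.mk_prod]
  have e : Cardinal.lift.{u} #β ≤ Cardinal.continuum.{u} := by
    rw [← Cardinal.lift_continuum.{u, 0}]
    exact Cardinal.lift_le.2 h'
  calc Cardinal.lift.{0} #α * Cardinal.lift.{u} #β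
      ≤ Cardinal.continuum.{u} * Cardinal.continuum.{u} := by
        rw [Cardinal.lift_uzero]; exact mul_le_mul' h e
    _ = _ := Cardinal.continuum_mul_self

theorem mk_set_nat_le : #(ℕ → Set ℕ) ≤ Cardinal.continuum := by
  apply mk_fun_nat_le
  rw [Cardinal.mk_set, Cardinal.mk_nat, Cardinal.two_power_aleph0]

end Card

/-- The subgroup generated by a countable set is countable. -/
theorem countable_closure {P : Type*} [AddCommGroup P] {s : Set P} (hs : s.Countable) :
    Countable (AddSubgroup.closure s) := by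
  have : Countable s := hs.to_subtype
  let F : (s →₀ ℤ) →+ P := Finsupp.liftAddHom (fun x => (zmultiplesHom P) (x : P))
  have h1 : AddSubgroup.closure s ≤ F.range := by
    rw [AddSubgroup.closure_le]
    intro x hx
    exact ⟨Finsupp.single ⟨x, hx⟩ 1, by simp [F]⟩
  have h2 : (F.range : Set P).Countable := by
    rw [AddMonoidHom.coe_range]
    exact countable_range F
  exact (h2.mono h1).to_subtype

section Labels

variable {P : Type u} [AddCommGroup P] {S : Type}

/-- index type of the first family -/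
abbrev Idx (P : Type u) : Type u := (ℕ → P) × (ℕ → Circ) × ℝ

/-- labels -/
abbrev Lab (P : Type u) (S : Type) : Type u :=
  ((ℕ → Idx P) × (ℕ → Circ)) × ((ℕ → S) × (ℕ → Set ℕ) × (ℕ → Circ))

omit [AddCommGroup P] in
theorem mk_Idx_le (hP : #P ≤ Cardinal.continuum.{u}) : #(Idx P) ≤ Cardinal.continuum.{u} := by
  apply mk_prod_le' (mk_fun_nat_le hP)
  apply mk_prod_le (mk_fun_nat_le mk_circ_le)
  rw [Cardinal.mk_real]

omit [AddCommGroup P] in
theorem mk_Lab_le (hP : #P ≤ Cardinal.continuum.{u}) (hS : #S ≤ Cardinal.continuum) :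
    #(Lab P S) ≤ Cardinal.continuum.{u} := by
  apply mk_prod_le'
  · exact mk_prod_le' (mk_fun_nat_le (mk_Idx_le hP)) (mk_fun_nat_le mk_circ_le)
  · exact mk_prod_le (mk_fun_nat_le hS) (mk_prod_le mk_set_nat_le (mk_fun_nat_le mk_circ_le))

open Classical in
/-- prescribed value of the character `α` on the label `j` -/
noncomputable def valF (e : ℕ) (j : Lab P S) (α : Idx P) : Circ :=
  if h : ∃ n, j.1.1 n = α then (if e • j.1.2 (Nat.find h) = 0 then j.1.2 (Nat.find h) else 0) else 0

open Classical in
/-- prescribed value of the character `v` of the second family on the label `j` -/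
noncomputable def valG (e : ℕ) (j : Lab P S) (v : Set S) : Circ :=
  if h : ∃ n, j.2.2.1 n = {k | j.2.1 k ∈ v} then
    (if e • j.2.2.2 (Nat.find h) = 0 then j.2.2.2 (Nat.find h) else 0) else 0

omit [AddCommGroup P] in
theorem smul_valF (e : ℕ) (j : Lab P S) (α : Idx P) : e • valF e j α = 0 := by
  unfold valF
  split_ifs with h h'
  · exact h'
  · exact smul_zero e
  · exact smul_zero e

omit [AddCommGroup P] in
theorem smul_valG (e : ℕ) (j : Lab P S) (v : Set S) : e • valG e j v = 0 := by
  unfold valG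
  split_ifs with h h'
  · exact h'
  · exact smul_zero e
  · exact smul_zero e

/-- **Existence of strongly independent families with the extension property.** -/
theorem exists_family {ι : Type u} (e : ℕ) (Φ : (ι →₀ ZMod e) →+ P)
    (hΦ : Function.Injective Φ) (he1 : e ≠ 1) (hP : #P ≤ Cardinal.continuum.{u})
    (hι : Cardinal.continuum.{u} ≤ #ι) [Nonempty S] (hS : #S ≤ Cardinal.continuum) :
    ∃ (f : Idx P → P →+ Circ) (g : Set S → P →+ Circ),
      (∀ A : Set (Idx P), A.Countable → ∀ v : Idx P → Circ, (∀ α, e • v α = 0) →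
        ∀ A' : Set (Set S), A'.Countable → ∀ v' : Set S → Circ, (∀ β, e • v' β = 0) →
        ∃ i : ι, (∀ α ∈ A, f α (Φ (Finsupp.single i 1)) = v α) ∧
          (∀ β ∈ A', g β (Φ (Finsupp.single i 1)) = v' β)) ∧
      (∀ (φ : P →+ Circ) (s : ℕ → P), ∃ α, ∀ n, f α (s n) = φ (s n)) := by
  classical
  have hnt : Nontrivial (ZMod e) := by
    rcases Nat.eq_zero_or_pos e with h | h
    · subst h; exact inferInstanceAs (Nontrivial ℤ)
    · have : Fact (1 < e) := ⟨by omega⟩
      infer_instance
  obtain ⟨lab⟩ : Nonempty (Lab P S ↪ ι) := Cardinal.le_def _ _ |>.1 ((mk_Lab_le hP hS).trans hι)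
  set b : ι → P := fun i => Φ (Finsupp.single i 1) with hb
  -- extension with prescribed values on the independent family
  have E1 : ∀ c : ι → Circ, (∀ i, e • c i = 0) → ∃ h : P →+ Circ, ∀ i, h (b i) = c i := by
    intro c hc
    obtain ⟨h₀, hh₀⟩ := exists_hom_finsupp e c hc
    obtain ⟨h, hh⟩ := exists_extension Φ hΦ h₀
    exact ⟨h, fun i => by rw [hb, hh, hh₀]⟩
  -- value attached to an index of `ι`
  have hval : ∀ (F : Lab P S → Circ), (∀ j, e • F j = 0) →
      ∃ h : P →+ Circ, ∀ j, h (b (lab j)) = F j := by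
    intro F hF
    obtain ⟨h, hh⟩ := E1 (fun i => if hi : ∃ j, lab j = i then F hi.choose else 0) (by
      intro i
      split_ifs with hi
      · exact hF _
      · exact smul_zero e)
    refine ⟨h, fun j => ?_⟩
    have hi : ∃ j', lab j' = lab j := ⟨j, rfl⟩
    rw [hh, dif_pos hi]
    congr 1
    exact lab.injective hi.choose_spec
  choose g hg using fun v : Set S => hval (fun j => valG e j v) (fun j => smul_valG e j v)
  -- the bad set of a sequence
  let Bad : (ℕ → P) → Set (Idx P) := fun s =>
    {α | ∃ d ∈ AddSubgroup.closure (range s), ∃ c : ι →₀ ZMod e, Φ c = d ∧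
      ∃ j : Lab P S, lab j ∈ c.support ∧ α ∈ range j.1.1}
  have hBad : ∀ s, (Bad s).Countable := by
    intro s
    have hD : (AddSubgroup.closure (range s) : Set P).Countable := by
      have : Countable (AddSubgroup.closure (range s)) :=
        countable_closure (countable_range s)
      exact this
    have hC : {c : ι →₀ ZMod e | Φ c ∈ AddSubgroup.closure (range s)}.Countable :=
      hD.preimage_of_injOn (hΦ.injOn)
    have hJ : (⋃ c ∈ {c : ι →₀ ZMod e | Φ c ∈ AddSubgroup.closure (range s)},
        {j : Lab P S | lab j ∈ c.support}).Countable := by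
      refine hC.biUnion fun c _ => ?_
      exact (c.support.finite_toSet.countable).preimage_of_injOn lab.injective.injOn
    refine (hJ.biUnion (fun j _ => countable_range j.1.1)).mono ?_
    rintro α ⟨d, hd, c, hc, j, hj, hα⟩
    exact mem_biUnion (mem_biUnion (show c ∈ {c : ι →₀ ZMod e | Φ c ∈ _} by
      simpa [hc] using hd) hj) hα
  -- good extensions
  have E2 : ∀ (φ : P →+ Circ) (s : ℕ → P) (α : Idx P), α ∉ Bad s →
      ∃ h : P →+ Circ, (∀ j : Lab P S, α ∈ range j.1.1 → h (b (lab j)) = valF e j α) ∧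
        ∀ n, h (s n) = φ (s n) := by
    intro φ s α hα
    set D := AddSubgroup.closure (range s) with hD
    set κ := {j : Lab P S // α ∈ range j.1.1}
    let emb : κ ↪ ι := ⟨fun j => lab j.1, fun x y hxy => Subtype.ext (lab.injective hxy)⟩
    let ext : (κ →₀ ZMod e) →+ (ι →₀ ZMod e) := Finsupp.embDomain.addMonoidHom emb
    let ψ : D × (κ →₀ ZMod e) →+ P :=
      (D.subtype.comp (AddMonoidHom.fst _ _)) + ((Φ.comp ext).comp (AddMonoidHom.snd _ _))
    have hψ : Function.Injective ψ := by
      rw [injective_iff_map_eq_zero]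
      rintro ⟨d, c⟩ hdc
      have h1 : (d : P) + Φ (ext c) = 0 := hdc
      have hc0 : c = 0 := by
        by_contra hc
        obtain ⟨j, hj⟩ := Finsupp.support_nonempty_iff.2 hc
        apply hα
        refine ⟨-(d:P), D.neg_mem d.2, ext c, ?_, j.1, ?_, j.2⟩
        · exact (neg_eq_of_add_eq_zero_right h1).symm
        · have : ext c = Finsupp.embDomain emb c := rfl
          rw [this, Finsupp.support_embDomain]
          exact Finset.mem_map_of_mem emb hj
      subst hc0
      simp only [map_zero, add_zero] at h1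
      ext
      · exact h1
      · rfl
    obtain ⟨h₁, hh₁⟩ := exists_hom_finsupp e (fun j : κ => valF e j.1 α)
      (fun j => smul_valF e j.1 α)
    let θ : D × (κ →₀ ZMod e) →+ Circ :=
      ((φ.comp D.subtype).comp (AddMonoidHom.fst _ _)) + (h₁.comp (AddMonoidHom.snd _ _))
    obtain ⟨h, hh⟩ := exists_extension ψ hψ θ
    refine ⟨h, ?_, ?_⟩
    · intro j hj
      have h2 := hh (0, Finsupp.single ⟨j, hj⟩ 1)
      have e1 : ψ (0, Finsupp.single ⟨j, hj⟩ 1) = b (lab j) := by
        change ((0 : D) : P) + Φ (ext (Finsupp.single ⟨j, hj⟩ 1)) = _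
        have : ext (Finsupp.single ⟨j, hj⟩ 1) = Finsupp.single (lab j) 1 := by
          change Finsupp.embDomain emb _ = _
          rw [Finsupp.embDomain_single]
          rfl
        rw [this]
        simp [hb]
      have e2 : θ (0, Finsupp.single ⟨j, hj⟩ 1) = valF e j α := by
        change φ ((0 : D) : P) + h₁ (Finsupp.single ⟨j, hj⟩ 1) = _
        rw [hh₁]
        simp
      rw [e1, e2] at h2
      exact h2
    · intro n
      have hsn : s n ∈ D := AddSubgroup.subset_closure (mem_range_self n)
      have h2 := hh (⟨s n, hsn⟩, 0)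
      have e1 : ψ (⟨s n, hsn⟩, 0) = s n := by
        change s n + Φ (ext 0) = _
        simp
      have e2 : θ (⟨s n, hsn⟩, 0) = φ (s n) := by
        change φ (s n) + h₁ 0 = _
        simp
      rw [e1, e2] at h2
      exact h2
  -- the first family
  have hf : ∀ α : Idx P, ∃ h : P →+ Circ,
      (∀ j : Lab P S, α ∈ range j.1.1 → h (b (lab j)) = valF e j α) ∧
      (∀ φ : P →+ Circ, (∀ n, φ (α.1 n) = α.2.1 n) → α ∉ Bad α.1 → ∀ n, h (α.1 n) = α.2.1 n) := by
    intro α
    by_cases hα : ∃ φ : P →+ Circ, (∀ n, φ (α.1 n) = α.2.1 n) ∧ α ∉ Bad α.1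
    · obtain ⟨φ, hφ, hbad⟩ := hα
      obtain ⟨h, h1, h2⟩ := E2 φ α.1 α hbad
      exact ⟨h, h1, fun _ _ _ n => (h2 n).trans (hφ n)⟩
    · obtain ⟨h, hh⟩ := hval (fun j => valF e j α) (fun j => smul_valF e j α)
      exact ⟨h, fun j _ => hh j, fun φ h1 h2 => absurd ⟨φ, h1, h2⟩ hα⟩
  choose f hf1 hf2 using hf
  refine ⟨f, g, ?_, ?_⟩
  · -- strong independence
    intro A hA v hv A' hA' v' hv'
    obtain ⟨u, hu⟩ : ∃ u : ℕ → Idx P, A ⊆ range u := by
      rcases A.eq_empty_or_nonempty with h | h
      · exact ⟨fun _ => (fun _ => 0, fun _ => 0, 0), by simp [h]⟩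
      · obtain ⟨u, hu⟩ := hA.exists_eq_range h
        exact ⟨u, hu.subset⟩
    obtain ⟨t, ht⟩ : ∃ t : ℕ → Set S, A' ⊆ range t := by
      rcases A'.eq_empty_or_nonempty with h | h
      · exact ⟨fun _ => ∅, by simp [h]⟩
      · obtain ⟨t, ht⟩ := hA'.exists_eq_range h
        exact ⟨t, ht.subset⟩
    -- separating points of S
    have hsep : ∀ n m : ℕ, ∃ x : S, t n ≠ t m → ¬ (x ∈ t n ↔ x ∈ t m) := by
      intro n m
      by_cases h : t n = t m
      · exact ⟨Classical.arbitrary S, fun h' => absurd h h'⟩
      · have : ¬ ∀ x, x ∈ t n ↔ x ∈ t m := fun h' => h (Set.ext h')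
        push Not at this
        obtain ⟨x, hx⟩ := this
        refine ⟨x, fun _ => ?_⟩
        tauto
    choose sp hsp using hsep
    let ε : ℕ → S := fun k => sp (Nat.unpair k).1 (Nat.unpair k).2
    let j : Lab P S := ((u, fun n => v (u n)), (ε, fun n => {k | ε k ∈ t n}, fun n => v' (t n)))
    refine ⟨lab j, ?_, ?_⟩
    · intro α hα
      obtain ⟨n, hn⟩ := hu hα
      have h1 := hf1 α j ⟨n, hn⟩
      change f α (b (lab j)) = v α
      rw [h1]
      unfold valF
      have hex : ∃ n, j.1.1 n = α := ⟨n, hn⟩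
      rw [dif_pos hex]
      have h2 : j.1.2 (Nat.find hex) = v α := by
        change v (u (Nat.find hex)) = v α
        congr 1
        exact Nat.find_spec hex
      rw [h2, if_pos (hv α)]
    · intro β hβ
      obtain ⟨n, hn⟩ := ht hβ
      change g β (b (lab j)) = v' β
      rw [hg]
      unfold valG
      have hex : ∃ n, j.2.2.1 n = {k | j.2.1 k ∈ β} := ⟨n, by rw [← hn]⟩
      rw [dif_pos hex]
      have h2 : j.2.2.2 (Nat.find hex) = v' β := by
        change v' (t (Nat.find hex)) = v' β
        congr 1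
        have hspec : {k | ε k ∈ t (Nat.find hex)} = {k | ε k ∈ β} := Nat.find_spec hex
        revert hspec
        generalize Nat.find hex = m
        intro hspec
        by_contra hne
        have hne' : t m ≠ t n := fun h' => hne (h'.trans hn)
        apply hsp m n hne'
        have h4 := Set.ext_iff.1 hspec (Nat.pair m n)
        rw [hn]
        simpa [ε] using h4
      rw [h2, if_pos (hv' β)]
  · -- extension property
    intro φ s
    obtain ⟨r, hr⟩ : ∃ r : ℝ, (s, (fun n => φ (s n)), r) ∉ Bad s := by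
      by_contra hcon
      push Not at hcon
      have h1 : (univ : Set ℝ).Countable := by
        have hinj : Function.Injective (fun r : ℝ => ((s, (fun n => φ (s n)), r) : Idx P)) := by
          intro r r' h
          simpa using h
        refine ((hBad s).preimage hinj).mono ?_
        intro r _
        exact hcon r
      exact Cardinal.not_countable_real h1
    exact ⟨(s, (fun n => φ (s n)), r), hf2 (s, (fun n => φ (s n)), r) φ (fun _ => rfl) hr⟩

end Labels

end Pool.Agent.H80Pseudo
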