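import Mathlib
import Pool.Agent.Lib.H80Pseudo.Family

/-!
# Algebra: torsion-free rank, maps to rational vector spaces
-/

open Set Filter Topology Cardinal

universe u

namespace Pool.Agent.H80Pseudo

/-- A maximal independent family and the corresponding map to a rational vector space. -/
theorem exists_psi (G : Type u) [AddCommGroup G] :
    ∃ (ι : Type u) (b : ι → G) (ψ : G →+ (ι →₀ ℚ)), (∀ i, ψ (b i) = Finsupp.single i 1) ∧
      (∀ g, ∃ n : ℕ, 0 < n ∧ n • g ∈ AddSubgroup.closure (range b)) := by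
  classical
  obtain ⟨s, hs, hmax⟩ := exists_maximal_linearIndepOn ℤ (id : G → G)
  refine ⟨s, Subtype.val, ?_⟩
  have hli : LinearIndependent ℤ (fun x : s => (x : G)) := hs
  let Φ : (s →₀ ℤ) →+ G := (Finsupp.linearCombination ℤ (fun x : s => (x:G))).toAddMonoidHom
  have hΦ : Function.Injective Φ := hli
  let j : (s →₀ ℤ) →+ (s →₀ ℚ) := Finsupp.mapRange.addMonoidHom (Int.castAddHom ℚ)
  letI : DivisibleBy (s →₀ ℚ) ℤ :=
    { div := fun a n => ((n:ℚ)⁻¹) • a
      div_zero := fun a => by simp
      div_cancel := fun {n} a hn => by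
        have hn' : (n:ℚ) ≠ 0 := Int.cast_ne_zero.2 hn
        rw [← Int.cast_smul_eq_zsmul ℚ n, smul_smul, mul_inv_cancel₀ hn', one_smul] }
  obtain ⟨ψ, hψ⟩ := (Module.Baer.of_divisible (s →₀ ℚ)).extension_property_addMonoidHom Φ hΦ j
  refine ⟨ψ, ?_, ?_⟩
  · intro i
    have h1 : ψ (Φ (Finsupp.single i 1)) = j (Finsupp.single i 1) := by rw [← hψ]; rfl
    have h2 : Φ (Finsupp.single i 1) = (i : G) := by simp [Φ]
    have h3 : j (Finsupp.single i 1) = Finsupp.single i 1 := by
      simp [j]
    rw [← h2, h1, h3]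
  · intro g
    have key : ∃ a : ℤ, a ≠ 0 ∧ a • g ∈ Submodule.span ℤ (s : Set G) := by
      by_cases hg : g ∈ s
      · exact ⟨1, one_ne_zero, by rw [one_smul]; exact Submodule.subset_span hg⟩
      · obtain ⟨a, ha, h⟩ := hmax g hg
        exact ⟨a, ha, by simpa using h⟩
    obtain ⟨a, ha, hmem⟩ := key
    refine ⟨a.natAbs, Int.natAbs_pos.2 ha, ?_⟩
    have hmem' : a • g ∈ AddSubgroup.closure (s : Set G) := by
      rw [← Submodule.span_int_eq_addSubgroupClosure]
      exact hmem
    have e : range (Subtype.val : s → G) = s := Subtype.range_val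
    rw [e]
    rcases Int.natAbs_eq a with h | h
    · rw [h] at hmem'
      rw [← natCast_zsmul]
      exact hmem'
    · rw [h] at hmem'
      rw [← natCast_zsmul]
      have := (AddSubgroup.closure (s : Set G)).neg_mem hmem'
      rwa [neg_smul, neg_neg] at this

/-- elements of the closure of the family -/
theorem mem_closure_range_iff {G : Type*} [AddCommGroup G] {ι : Type*} (b : ι → G) (g : G) :
    g ∈ AddSubgroup.closure (range b) ↔ ∃ c : ι →₀ ℤ, g = c.sum fun i n => n • b i := by
  rw [← Submodule.span_int_eq_addSubgroupClosure, Submodule.mem_toAddSubgroup,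
    Finsupp.mem_span_range_iff_exists_finsupp]
  constructor
  · rintro ⟨c, hc⟩; exact ⟨c, hc.symm⟩
  · rintro ⟨c, hc⟩; exact ⟨c, hc.symm⟩

theorem eq_zero_of_mem_closure {G : Type*} [AddCommGroup G] {ι : Type*} {b : ι → G}
    {ψ : G →+ (ι →₀ ℚ)} (hb : ∀ i, ψ (b i) = Finsupp.single i 1) {g : G}
    (hg : g ∈ AddSubgroup.closure (range b)) (h0 : ψ g = 0) : g = 0 := by
  classical
  obtain ⟨c, rfl⟩ := (mem_closure_range_iff b g).1 hg
  have h1 : ψ (c.sum fun i n => n • b i) = c.sum fun i n => Finsupp.single i (n:ℚ) := by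
    rw [map_finsuppSum]
    apply Finsupp.sum_congr
    intro i _
    rw [map_zsmul, hb]
    simp
  have h2 : c = 0 := by
    ext i
    have h3 := DFunLike.congr_fun (h1.symm.trans h0) i
    rw [Finsupp.sum_apply] at h3
    simp only [Finsupp.single_apply] at h3
    rw [Finsupp.sum_ite_eq'] at h3
    by_cases hi : i ∈ c.support
    · rw [if_pos hi] at h3
      simpa using h3
    · simpa using hi
  rw [h2]
  simp

end Pool.Agent.H80Pseudo
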