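import Mathlib
import Pool.Agent.Lib.H80Pseudo.Family

/-!
# Killing accumulation points of selections
-/

open Set Filter Topology Cardinal

universe u

namespace Pool.Agent.H80Pseudo

/-- choice of the coefficients in decreasing order -/
theorem exists_coeff {P : Type*} [AddCommGroup P] (a : Circ) (ha : 1/3 ≤ ‖a‖) (N : ℕ) :
    ∀ (f : ℕ → P →+ Circ) (x : ℕ → P), (∀ n, ‖f n (x n) - a‖ ≤ 1/100) →
      ∃ η : ℕ → Bool, ∀ n < N,
        1/6 - 1/100 ≤ ‖∑ m ∈ Finset.Ico n N, if η m then f m (x n) else 0‖ := by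
  induction N with
  | zero => intro f x _; exact ⟨fun _ => true, fun n hn => absurd hn (Nat.not_lt_zero n)⟩
  | succ N ih =>
    intro f x hfx
    obtain ⟨η', hη'⟩ := ih (fun m => f (m+1)) (fun n => x (n+1)) (fun n => hfx (n+1))
    -- value at 0 of the later terms
    set s : Circ := ∑ m ∈ Finset.Ico 1 (N+1), if η' (m-1) then f m (x 0) else 0 with hs
    let η : ℕ → Bool := fun m => if m = 0 then decide (‖s‖ < 1/6) else η' (m-1)
    refine ⟨η, ?_⟩
    intro n hn
    rcases Nat.eq_zero_or_pos n with h0 | hpos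
    · subst h0
      rw [Finset.sum_eq_sum_Ico_succ_bot (by omega)]
      have e1 : ∑ m ∈ Finset.Ico (0+1) (N+1), (if η m then f m (x 0) else 0) = s := by
        rw [hs]
        apply Finset.sum_congr rfl
        intro m hm
        have : m ≠ 0 := by
          have := (Finset.mem_Ico.1 hm).1
          omega
        simp [η, this]
      rw [e1]
      by_cases hc : ‖s‖ < 1/6
      · have : η 0 = true := by simp only [η, if_pos rfl]; exact decide_eq_true hc
        rw [this, if_pos rfl]
        have e2 : a = (f 0 (x 0) + s) - (f 0 (x 0) - a) - s := by abel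
        have h1 : ‖a‖ ≤ ‖f 0 (x 0) + s‖ + ‖f 0 (x 0) - a‖ + ‖s‖ := by
          conv_lhs => rw [e2]
          exact (norm_sub_le _ _).trans (by gcongr; exact norm_sub_le _ _)
        have := hfx 0
        linarith
      · have : η 0 = false := by simp only [η, if_pos rfl]; exact decide_eq_false hc
        rw [this]
        simp only [Bool.false_eq_true, if_false, zero_add]
        rw [not_lt] at hc
        linarith
    · obtain ⟨n', rfl⟩ : ∃ n', n = n' + 1 := ⟨n - 1, by omega⟩
      have h1 := hη' n' (by omega)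
      rw [← Finset.sum_Ico_add' (fun m => if η m then f m (x (n'+1)) else 0) n' N 1]
      convert h1 using 4 with m hm
      simp [η]

/-- **Killing lemma.** -/
theorem exists_killing {P : Type*} [AddCommGroup P] (f : ℕ → P →+ Circ) (x : ℕ → P) (a : Circ)
    (ha : 1/3 ≤ ‖a‖) (h1 : ∀ n, ∀ m < n, ‖f m (x n)‖ ≤ 1 / (100 * (n + 1)))
    (h2 : ∀ n, ‖f n (x n) - a‖ ≤ 1/100) :
    ∃ φ : P →+ Circ, (∀ n, 1/8 ≤ ‖φ (x n)‖) ∧ (∀ p, (∀ m, f m p = 0) → φ p = 0) := by
  choose η hη using fun N => exists_coeff a ha N f x h2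
  let φN : ℕ → P →+ Circ := fun N => ∑ m ∈ Finset.range N, if η N m then f m else 0
  have hφN : ∀ N p, φN N p = ∑ m ∈ Finset.range N, if η N m then f m p else 0 := by
    intro N p
    simp only [φN]
    rw [AddMonoidHom.finsetSum_apply]
    apply Finset.sum_congr rfl
    intro m _
    split_ifs <;> rfl
  have hlow : ∀ N n, n < N → 1/8 ≤ ‖φN N (x n)‖ := by
    intro N n hn
    rw [hφN, ← Finset.sum_range_add_sum_Ico _ hn.le]
    have hsmall : ‖∑ m ∈ Finset.range n, (if η N m then f m (x n) else 0)‖ ≤ 1/100 := by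
      calc ‖∑ m ∈ Finset.range n, (if η N m then f m (x n) else 0)‖
          ≤ ∑ m ∈ Finset.range n, ‖(if η N m then f m (x n) else 0)‖ := norm_sum_le _ _
        _ ≤ ∑ m ∈ Finset.range n, (1 / (100 * ((n:ℝ) + 1))) := by
            apply Finset.sum_le_sum
            intro m hm
            split_ifs
            · exact h1 n m (Finset.mem_range.1 hm)
            · rw [norm_zero]; positivity
        _ = n * (1 / (100 * ((n:ℝ) + 1))) := by rw [Finset.sum_const, Finset.card_range, nsmul_eq_mul]
        _ ≤ 1/100 := by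
            rw [mul_one_div, div_le_div_iff₀ (by positivity) (by norm_num)]
            linarith
    have h3 := hη N n hn
    have h4 := norm_sub_norm_le (∑ m ∈ Finset.Ico n N, (if η N m then f m (x n) else 0))
      (-(∑ m ∈ Finset.range n, (if η N m then f m (x n) else 0)))
    rw [norm_neg, sub_neg_eq_add] at h4
    rw [add_comm]
    linarith
  -- limit along an ultrafilter
  have hlim : ∀ p, ∃ l : Circ, Tendsto (fun N => φN N p) (hyperfilter ℕ : Filter ℕ) (𝓝 l) := by
    intro p
    obtain ⟨l, -, hl⟩ := isCompact_univ.ultrafilter_le_nhds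
      ((hyperfilter ℕ).map (fun N => φN N p)) (by simp)
    exact ⟨l, hl⟩
  choose L hL using hlim
  have hat : (hyperfilter ℕ : Filter ℕ) ≤ atTop := by
    rw [← Nat.cofinite_eq_atTop]
    exact hyperfilter_le_cofinite
  let φ : P →+ Circ :=
    { toFun := L
      map_zero' := by
        apply tendsto_nhds_unique (hL 0)
        simp only [map_zero]
        exact tendsto_const_nhds
      map_add' := by
        intro p q
        apply tendsto_nhds_unique (hL (p + q))
        simp only [map_add]
        exact (hL p).add (hL q) }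
  refine ⟨φ, ?_, ?_⟩
  · intro n
    have h3 : Tendsto (fun N => ‖φN N (x n)‖) (hyperfilter ℕ : Filter ℕ) (𝓝 ‖L (x n)‖) :=
      (hL (x n)).norm
    apply ge_of_tendsto h3
    filter_upwards [hat (eventually_gt_atTop n)] with N hN
    exact hlow N n hN
  · intro p hp
    apply tendsto_nhds_unique (hL p)
    have : ∀ N, φN N p = 0 := by
      intro N
      rw [hφN]
      apply Finset.sum_eq_zero
      intro m _
      rw [hp m]
      simp
    simp only [this]
    exact tendsto_const_nhds

theorem norm_coe_circ {x : ℝ} (h0 : 0 ≤ x) (h1 : x ≤ 1/2) : ‖(x : Circ)‖ = x := by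
  have := (AddCircle.norm_coe_eq_abs_iff (p := (1:ℝ)) (x := x) one_ne_zero).2
    (by rw [abs_of_nonneg h0, abs_one]; exact h1)
  rw [this, abs_of_nonneg h0]

/-- a far away element killed by `e` -/
theorem exists_far (e : ℕ) (he : e ≠ 1) : ∃ a : Circ, e • a = 0 ∧ 1/3 ≤ ‖a‖ := by
  rcases Nat.eq_zero_or_pos e with h | h
  · subst h
    refine ⟨((1/2 : ℝ) : Circ), zero_smul _ _, ?_⟩
    rw [norm_coe_circ (by norm_num) le_rfl]
    norm_num
  · have he2 : 2 ≤ e := by omega
    have her : (0:ℝ) < e := by exact_mod_cast h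
    refine ⟨(((e/2 : ℕ) : ℝ) / e : ℝ), ?_, ?_⟩
    · rw [← AddCircle.coe_nsmul, nsmul_eq_mul, mul_div_cancel₀ _ her.ne']
      have := AddCircle.coe_period (1:ℝ)
      have h2 : (((e/2 : ℕ) : ℝ) : Circ) = (e/2 : ℕ) • ((1:ℝ) : Circ) := by
        rw [← AddCircle.coe_nsmul, nsmul_eq_mul, mul_one]
      rw [h2, this, smul_zero]
    · have h3 : ((e/2 : ℕ) : ℝ) ≤ e / 2 := Nat.cast_div_le
      rw [norm_coe_circ (by positivity) (by
        rw [div_le_iff₀ her]; linarith)]
      rw [le_div_iff₀ her]
      have h4 : e ≤ 3 * (e/2) := by omega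
      have h5 : (e:ℝ) ≤ 3 * ((e/2 : ℕ) : ℝ) := by exact_mod_cast h4
      linarith

/-- **Criterion for not being selectively pseudocompact.** -/
theorem not_selectivelyPseudocompact {G P I : Type*} [AddCommGroup G] [AddCommGroup P] [Infinite I]
    [TopologicalSpace G] (π : G →+ P) (e : ℕ) (he : e ≠ 1) (F : I → P →+ Circ)
    (hcont : ∀ α, Continuous fun g => F α (π g))
    (hSI : ∀ A : Set I, A.Countable → ∀ v : I → Circ, (∀ α, e • v α = 0) →
      ∃ g : G, ∀ α ∈ A, F α (π g) = v α)
    (hExt : ∀ (φ : P →+ Circ) (s : ℕ → P), ∃ α, ∀ n, F α (s n) = φ (s n)) :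
    ¬ SelectivelyPseudocompactSp G := by
  classical
  intro hSP
  obtain ⟨a, hea, ha⟩ := exists_far e he
  let al : ℕ ↪ I := Infinite.natEmbedding I
  let U : ℕ → Set G := fun n => {g | (∀ m ∈ Finset.range n, ‖F (al m) (π g)‖ < 1 / (100 * ((n:ℝ) + 1))) ∧
    ‖F (al n) (π g) - a‖ < 1/100}
  have hUo : ∀ n, IsOpen (U n) := by
    intro n
    have hU : U n = (⋂ m ∈ Finset.range n, {g | ‖F (al m) (π g)‖ < 1 / (100 * ((n:ℝ) + 1))}) ∩
        {g | ‖F (al n) (π g) - a‖ < 1/100} := by
      ext g
      simp [U]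
    rw [hU]
    apply IsOpen.inter
    · apply isOpen_biInter_finset
      intro m _
      exact isOpen_lt (hcont _).norm continuous_const
    · exact isOpen_lt ((hcont _).sub continuous_const).norm continuous_const
  have hUne : ∀ n, (U n).Nonempty := by
    intro n
    obtain ⟨g, hg⟩ := hSI (range al) (countable_range al) (fun α => if α = al n then a else 0) (by
      intro α
      split_ifs
      · exact hea
      · exact smul_zero e)
    refine ⟨g, ?_, ?_⟩
    · intro m hm
      have hmn : al m ≠ al n := fun h => by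
        have := al.injective h
        rw [Finset.mem_range] at hm
        omega
      rw [hg _ (mem_range_self m), if_neg hmn, norm_zero]
      positivity
    · rw [hg _ (mem_range_self n), if_pos rfl, sub_self, norm_zero]
      norm_num
  obtain ⟨x, hx, y, hy⟩ := hSP U hUo hUne
  obtain ⟨φ, hφ1, hφ2⟩ := exists_killing (fun m => F (al m)) (fun n => π (x n)) a ha
    (fun n m hm => ((hx n).1 m (Finset.mem_range.2 hm)).le) (fun n => (hx n).2.le)
  obtain ⟨α, hα⟩ := hExt φ (fun n => if n = 0 then π y else π (x (n-1)))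
  have hαy : F α (π y) = φ (π y) := by simpa using hα 0
  have hαx : ∀ n, F α (π (x n)) = φ (π (x n)) := fun n => by simpa using hα (n+1)
  -- the first coordinates of the accumulation point vanish
  have hzero : ∀ m, F (al m) (π y) = 0 := by
    intro m
    by_contra hne
    have hpos : 0 < ‖F (al m) (π y)‖ := norm_pos_iff.2 hne
    set δ := ‖F (al m) (π y)‖ with hδ
    have hV : {g | ‖F (al m) (π g) - F (al m) (π y)‖ < δ/2} ∈ 𝓝 y := by
      have ho : IsOpen {g | ‖F (al m) (π g) - F (al m) (π y)‖ < δ/2} :=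
        isOpen_lt ((hcont _).sub continuous_const).norm continuous_const
      apply ho.mem_nhds
      simp only [Set.mem_ofPred_eq, sub_self, norm_zero]
      linarith
    obtain ⟨N, hN⟩ := exists_nat_gt (2/δ)
    obtain ⟨n, hn1, hn2⟩ := (hy _ hV).exists_gt (max N m)
    have h3 := (hx n).1 m (Finset.mem_range.2 ((le_max_right _ _).trans_lt hn2))
    have h4 : ‖F (al m) (π (x n)) - F (al m) (π y)‖ < δ/2 := hn1
    have h5 : (N:ℝ) < n := by exact_mod_cast (le_max_left N m).trans_lt hn2
    have h6 : 1 / (100 * ((n:ℝ) + 1)) < δ/2 := by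
      rw [div_lt_iff₀ (by positivity)]
      have : 2 < n * δ := by
        have := hN.trans h5
        rwa [div_lt_iff₀ hpos] at this
      nlinarith
    have h7 : δ ≤ ‖F (al m) (π (x n))‖ + ‖F (al m) (π (x n)) - F (al m) (π y)‖ := by
      have e1 : F (al m) (π y) = F (al m) (π (x n)) - (F (al m) (π (x n)) - F (al m) (π y)) := by abel
      rw [hδ]
      conv_lhs => rw [e1]
      exact norm_sub_le _ _
    linarith
  have hφy : F α (π y) = 0 := by rw [hαy]; exact hφ2 _ hzero
  have hV : {g | ‖F α (π g)‖ < 1/8} ∈ 𝓝 y := by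
    have ho : IsOpen {g | ‖F α (π g)‖ < 1/8} := isOpen_lt (hcont _).norm continuous_const
    apply ho.mem_nhds
    simp only [Set.mem_ofPred_eq, hφy, norm_zero]
    norm_num
  obtain ⟨n, hn⟩ := (hy _ hV).nonempty
  have h3 : ‖F α (π (x n))‖ < 1/8 := hn
  rw [hαx] at h3
  have := hφ1 n
  linarith

end Pool.Agent.H80Pseudo
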