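import Mathlib
import Pool.Agent.Lib.H80Pseudo.Kill
import Pool.Agent.Lib.H80Pseudo.Alg

/-!
# Final step and case (a)
-/

open Set Filter Topology Cardinal

universe u

namespace Pool.Agent.H80Pseudo

/-- existence of a pseudocompact Hausdorff group topology that is not selectively pseudocompact -/
def HasNonSel (G : Type u) [AddCommGroup G] : Prop :=
  ∃ t : TopologicalSpace G, @IsTopologicalAddGroup G t _ ∧ @T2Space G t ∧ @PseudocompactSp G t ∧
    ¬ @SelectivelyPseudocompactSp G t

theorem t2_joinTop {G : Type*} [AddCommGroup G] (t : TopologicalSpace G)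
    (ht : @IsTopologicalAddGroup G t _) {K : Type*} (H : K → G →+ Circ)
    (h : ∀ g ≠ 0, (∃ U ∈ @nhds G t 0, g ∉ U) ∨ ∃ k, H k g ≠ 0) : @T2Space G (joinTop t H) := by
  have htg := isTopologicalAddGroup_joinTop t ht H
  have hle : joinTop t H ≤ t := inf_le_left
  have hcont := continuous_joinTop t H
  apply @IsTopologicalAddGroup.t2Space_of_zero_sep G (joinTop t H) _ htg
  intro g hg
  rcases h g hg with ⟨U, hU, hgU⟩ | ⟨k, hk⟩
  · exact ⟨U, nhds_mono hle hU, hgU⟩
  · let _ := joinTop t H
    refine ⟨H k ⁻¹' {0}ᶜ ᶜ ∪ {x | H k x ≠ H k g}, ?_, ?_⟩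
    · have ho : IsOpen {x | H k x ≠ H k g} :=
        isOpen_ne_fun (hcont k) continuous_const
      apply mem_of_superset (ho.mem_nhds ?_) subset_union_right
      simpa using Ne.symm hk
    · intro hmem
      rcases hmem with hmem | hmem
      · apply hk
        simpa using hmem
      · exact hmem rfl

theorem finish {G : Type u} [AddCommGroup G] [t : TopologicalSpace G] [IsTopologicalAddGroup G]
    (hG : PseudocompactSp G) {P I K : Type*} [AddCommGroup P] [Infinite I] (e : ℕ) (he : e ≠ 1)
    (π : G →+ P) (F : I → P →+ Circ)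
    (hExt : ∀ (φ : P →+ Circ) (s : ℕ → P), ∃ α, ∀ n, F α (s n) = φ (s n))
    (H : K → G →+ Circ) (hH : ∀ k g, e • H k g = 0) (hSI : StrongIndep t e H)
    (j : I → K) (hj : Function.Injective j) (hjF : ∀ α g, H (j α) g = F α (π g))
    (hT2 : ∀ g ≠ 0, (∃ U ∈ 𝓝 (0:G), g ∉ U) ∨ ∃ k, H k g ≠ 0) : HasNonSel G := by
  classical
  refine ⟨joinTop t H, isTopologicalAddGroup_joinTop t inferInstance H,
    t2_joinTop t inferInstance H hT2, hG.joinTop e H hH hSI, ?_⟩
  have hcont := continuous_joinTop t H
  let _ := joinTop t H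
  apply not_selectivelyPseudocompact π e he F
  · intro α
    have : (fun g => F α (π g)) = fun g => H (j α) g := by
      ext g; rw [hjF]
    rw [this]
    exact hcont (j α)
  · intro A hA v hv
    obtain ⟨g, -, hg⟩ := hSI (fun _ => univ) (fun _ => univ_mem) (j '' A) (hA.image j)
      (fun k => if h : ∃ α, j α = k then v h.choose else 0) (by
        intro k
        split_ifs with h
        · exact hv _
        · exact smul_zero e)
    refine ⟨g, fun α hα => ?_⟩
    have h1 := hg (j α) (mem_image_of_mem j hα)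
    have hex : ∃ α', j α' = j α := ⟨α, rfl⟩
    rw [dif_pos hex, hj hex.choose_spec] at h1
    rw [← hjF, h1]
  · exact hExt

theorem infinite_Idx (P : Type u) [Nonempty P] : Infinite (Idx P) :=
  Infinite.of_injective
    (fun r : ℝ => (((fun _ => Classical.arbitrary P), (fun _ => 0), r) : Idx P))
    (fun r r' h => by simpa using h)

/-- **Case (a)**: torsion-free rank larger than the continuum. -/
theorem caseA {G : Type u} [AddCommGroup G] [t : TopologicalSpace G] [IsTopologicalAddGroup G]
    [T2Space G] (hG : PseudocompactSp G) {ι : Type u} (b : ι → G) (ψ : G →+ (ι →₀ ℚ))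
    (hb : ∀ i, ψ (b i) = Finsupp.single i 1) (hι : Cardinal.continuum.{u} < #ι) :
    HasNonSel G := by
  classical
  have hinf : Infinite ι := by
    rw [Cardinal.infinite_iff]
    exact Cardinal.aleph0_le_continuum.trans hι.le
  obtain ⟨e⟩ : Nonempty (ι ≃ ℕ × ι) := by
    rw [← Cardinal.eq, Cardinal.mk_prod]
    simp
  let A : ℕ → AddSubgroup G := fun n =>
    { carrier := {g | ∀ i, n < (e i).1 → ψ g i = 0}
      zero_mem' := fun i _ => by simp
      add_mem' := fun {x y} hx hy i hi => by rw [map_add, Finsupp.add_apply, hx i hi, hy i hi, add_zero]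
      neg_mem' := fun {x} hx i hi => by rw [map_neg, Finsupp.neg_apply, hx i hi, neg_zero] }
  have hA : ∀ g, ∃ n, g ∈ A n := by
    intro g
    refine ⟨(ψ g).support.sup (fun i => (e i).1), ?_⟩
    intro i hi
    by_contra hne
    have := Finset.le_sup (f := fun i => (e i).1) (Finsupp.mem_support_iff.2 hne)
    exact absurd hi (not_lt.2 this)
  obtain ⟨n, W, hW, hWn, hD⟩ := hG.exists_dense_layer A hA
  have hR : #(G ⧸ hW.core) ≤ Cardinal.continuum.{u} := hW.mk_quotient_core_le (hG.cptChn hW hWn)
  let E : Set ι := ⋃ q : G ⧸ hW.core, ((ψ q.out).support : Set ι)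
  have hE : #E ≤ Cardinal.continuum.{u} := by
    refine (Cardinal.mk_iUnion_le _).trans ?_
    calc #(G ⧸ hW.core) * ⨆ q : G ⧸ hW.core, #((ψ q.out).support : Set ι)
        ≤ Cardinal.continuum.{u} * Cardinal.aleph0.{u} := by
          apply mul_le_mul' hR
          apply ciSup_le'
          intro q
          exact (Cardinal.lt_aleph0_of_finite _).le
      _ = Cardinal.continuum.{u} := Cardinal.continuum_mul_aleph0
  let Ly : Set ι := range fun i => e.symm (n+1, i)
  have hLy : #Ly = #ι := by
    apply Cardinal.mk_range_eq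
    intro i j hij
    simpa using hij
  have hdiff : Cardinal.continuum.{u} ≤ #(Ly \ E : Set ι) := by
    by_contra hlt
    rw [not_le] at hlt
    have h1 : #Ly ≤ #(Ly \ E : Set ι) + #E := by
      refine le_trans (Cardinal.mk_le_mk_of_subset ?_) (Cardinal.mk_union_le _ _)
      intro x hx
      by_cases hxE : x ∈ E
      · exact Or.inr hxE
      · exact Or.inl ⟨hx, hxE⟩
    have h2 : #(Ly \ E : Set ι) + #E ≤ Cardinal.continuum.{u} := by
      calc _ ≤ Cardinal.continuum.{u} + Cardinal.continuum.{u} := add_le_add hlt.le hE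
        _ = _ := Cardinal.continuum_add_self
    rw [hLy] at h1
    exact absurd hι (not_lt.2 (h1.trans h2))
  obtain ⟨E', hE'sub, hE'card⟩ := Cardinal.le_mk_iff_exists_subset.1 hdiff
  let ψ₃ : G →+ (E' →₀ ℚ) := (Finsupp.subtypeDomainAddMonoidHom (p := fun i => i ∈ E')).comp ψ
  have hψ₃ : ∀ g i, ψ₃ g i = ψ g i := fun g i => rfl
  have hψA : ∀ a ∈ A n, ψ₃ a = 0 := by
    intro a ha
    ext i
    rw [hψ₃]
    apply ha
    obtain ⟨i', hi'⟩ := (hE'sub i.2).1
    rw [← hi']
    simp
  have hψR : ∀ q : G ⧸ hW.core, ψ₃ q.out = 0 := by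
    intro q
    ext i
    rw [hψ₃]
    by_contra hne
    apply (hE'sub i.2).2
    exact mem_iUnion.2 ⟨q, Finsupp.mem_support_iff.2 hne⟩
  have hinf' : Infinite E' := by
    rw [Cardinal.infinite_iff, hE'card]
    exact Cardinal.aleph0_le_continuum
  have hP : #(E' →₀ ℚ) ≤ Cardinal.continuum.{u} := by
    rw [Cardinal.mk_finsupp_lift_of_infinite, hE'card]
    simp [Cardinal.aleph0_le_continuum]
  let Φ : (E' →₀ ZMod 0) →+ (E' →₀ ℚ) := Finsupp.mapRange.addMonoidHom (Int.castAddHom ℚ)
  have hΦ : Function.Injective Φ :=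
    Finsupp.mapRange_injective _ (map_zero _) Int.cast_injective
  have hΦb : ∀ i : E', Φ (Finsupp.single i 1) = ψ₃ (b i) := by
    intro i
    ext j
    rw [hψ₃, hb]
    have : Φ (Finsupp.single i 1) = Finsupp.single i 1 := by
      have h1 : Φ (Finsupp.single i 1) = Finsupp.single i ((Int.castAddHom ℚ) (1:ℤ)) :=
        Finsupp.mapRange_single (hf := map_zero _)
      rw [h1]
      simp
    rw [this, Finsupp.single_apply, Finsupp.single_apply]
    simp only [Subtype.ext_iff]
  have hIdx := infinite_Idx (E' →₀ ℚ)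
  obtain ⟨f, g₀, hfg, hExt⟩ := exists_family (S := ℝ) 0 Φ hΦ (by norm_num) hP hE'card.ge
    (by rw [Cardinal.mk_real])
  refine finish hG 0 (by norm_num) ψ₃ f hExt (fun α => (f α).comp ψ₃) (fun _ _ => zero_smul _ _)
    ?_ id Function.injective_id (fun _ _ => rfl) ?_
  · intro V hV B hB v _
    obtain ⟨i, hi, -⟩ := hfg B hB v (fun _ => zero_smul _ _) ∅ countable_empty (fun _ => 0)
      (fun _ => zero_smul _ _)
    -- approximate `b i` by an element of the dense subgroup
    let q : G ⧸ hW.core := QuotientAddGroup.mk (b i)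
    have hq : b i - q.out ∈ hW.core := by
      have h1 : (QuotientAddGroup.mk q.out : G ⧸ hW.core) = QuotientAddGroup.mk (b i) :=
        QuotientAddGroup.out_eq' q
      rw [QuotientAddGroup.eq] at h1
      rwa [neg_add_eq_sub] at h1
    obtain ⟨a, haA, -, haV⟩ := hD (fun k => {x | -x ∈ V k}) (by
      intro k
      have : (fun x : G => -x) ⁻¹' V k ∈ 𝓝 (0:G) := by
        apply continuous_neg.continuousAt.preimage_mem_nhds
        simpa using hV k
      exact this) _ hq
    refine ⟨b i - q.out - a, ?_, ?_⟩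
    · intro k
      have := haV k
      simpa using this
    · intro α hα
      change f α (ψ₃ (b i - q.out - a)) = v α
      have h5 : ψ₃ (b i - q.out - a) = Φ (Finsupp.single i 1) := by
        rw [map_sub, map_sub, hψA a haA, hψR, sub_zero, sub_zero, ← hΦb]
      rw [h5]
      exact hi α hα
  · intro g hg
    left
    exact ⟨{g}ᶜ, isOpen_compl_singleton.mem_nhds (by simpa using hg.symm), by simp⟩

end Pool.Agent.H80Pseudo
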