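import Mathlib
import Pool.Agent.Lib.H80Pseudo.Finish

/-!
# Case (b): a large quotient of socles
-/

open Set Filter Topology Cardinal

universe u

namespace Pool.Agent.H80Pseudo

/-- division by `p` in `ZMod (p ^ k)` -/
theorem zmod_div {p k : ℕ} (hp : 0 < p) (i : ℕ) (hik : i ≤ k)
    (x : ZMod (p ^ k)) (hx : p ^ (k - i) • x = 0) :
    x = p ^ i • (((x.val / p ^ i : ℕ)) : ZMod (p ^ k)) := by
  have hne : NeZero (p ^ k) := ⟨(pow_pos hp k).ne'⟩
  have h1 : ((p ^ (k - i) * x.val : ℕ) : ZMod (p ^ k)) = 0 := by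
    rw [Nat.cast_mul, ZMod.natCast_zmod_val, ← nsmul_eq_mul, hx]
  rw [ZMod.natCast_eq_zero_iff] at h1
  have h2 : p ^ i ∣ x.val := by
    have e : p ^ (k - i) * p ^ i = p ^ k := by rw [← pow_add]; congr 1; omega
    have h1' := e.dvd.trans h1
    exact (Nat.mul_dvd_mul_iff_left (pow_pos hp _)).1 h1'
  obtain ⟨m, hm⟩ := h2
  rw [nsmul_eq_mul, ← Nat.cast_mul, Nat.mul_div_cancel' ⟨m, hm⟩, ZMod.natCast_zmod_val]

/-- A pure bounded free subgroup splits off. -/
theorem exists_retraction {G J : Type*} [AddCommGroup G] {p : ℕ} (hp : p.Prime) {k : ℕ}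
    (hk : 0 < k) (Φ : (J →₀ ZMod (p ^ k)) →+ G)
    (hpure : ∀ c g, Φ c = (p ^ k) • g → c = 0) :
    ∃ π : G →+ (J →₀ ZMod (p ^ k)), ∀ c, π (Φ c) = c := by
  classical
  let S : Set (AddSubgroup G) := {C | (∀ g, p ^ k • g ∈ C) ∧ ∀ c, Φ c ∈ C → c = 0}
  have hpk : ∀ c : J →₀ ZMod (p ^ k), p ^ k • c = 0 := by
    intro c
    ext j
    rw [Finsupp.smul_apply, nsmul_eq_mul, ZMod.natCast_self, zero_mul]
    rfl
  let C₀ : AddSubgroup G := (nsmulAddMonoidHom (p ^ k) : G →+ G).range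
  have hC₀ : C₀ ∈ S := by
    refine ⟨fun g => ⟨g, rfl⟩, ?_⟩
    rintro c ⟨g, hg⟩
    exact hpure c g hg.symm
  obtain ⟨C, -, hC⟩ := zorn_le_nonempty₀ S (by
    intro ch hch hchain y hy
    refine ⟨sSup ch, ⟨?_, ?_⟩, fun z hz => le_sSup hz⟩
    · intro g
      exact (le_sSup hy : y ≤ sSup ch) ((hch hy).1 g)
    · intro c hc
      rw [AddSubgroup.mem_sSup_of_directedOn ⟨y, hy⟩ hchain.directedOn] at hc
      obtain ⟨s, hs, hcs⟩ := hc
      exact (hch hs).2 c hcs) C₀ hC₀
  obtain ⟨⟨hC1, hC2⟩, hmax⟩ := hC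
  -- decomposition
  have hdec : ∀ g, ∃ c, g - Φ c ∈ C := by
    by_contra hcon
    push Not at hcon
    obtain ⟨g, hg⟩ := hcon
    -- minimal exponent
    have hex : ∃ m, ∃ c, p ^ m • g - Φ c ∈ C := ⟨k, 0, by simpa using hC1 g⟩
    obtain ⟨m, hm⟩ : ∃ m, Nat.find hex = m + 1 := by
      refine Nat.exists_eq_succ_of_ne_zero fun h0 => ?_
      have := Nat.find_spec hex
      rw [h0] at this
      obtain ⟨c, hc⟩ := this
      exact hg c (by simpa using hc)
    obtain ⟨c, hc⟩ := Nat.find_spec hex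
    have hmin : ∀ c, p ^ m • g - Φ c ∉ C := by
      intro c hc'
      exact Nat.find_min hex (m := m) (by omega) ⟨c, hc'⟩
    rw [hm] at hc
    set g₁ := p ^ m • g with hg₁
    have hc1 : p • g₁ - Φ c ∈ C := by
      rw [hg₁, smul_smul, ← pow_succ']
      exact hc
    -- `c` is divisible by `p`
    have hc2 : p ^ (k - 1) • c = 0 := by
      apply hC2
      have h1 : p ^ (k-1) • (p • g₁ - Φ c) ∈ C := C.nsmul_mem hc1 _
      have h2 : p ^ (k-1) • (p • g₁) ∈ C := by
        rw [smul_smul, ← pow_succ, Nat.sub_add_cancel hk]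
        exact hC1 g₁
      have h3 := C.sub_mem h2 h1
      rw [smul_sub, sub_sub_cancel] at h3
      rwa [map_nsmul]
    let c' : J →₀ ZMod (p ^ k) := c.mapRange (fun x => ((x.val / p ^ 1 : ℕ) : ZMod (p ^ k)))
      (by simp)
    have hcc' : c = p • c' := by
      ext j
      have h1 : p ^ (k - 1) • c j = 0 := by
        have := DFunLike.congr_fun hc2 j
        simpa using this
      have h2 := zmod_div hp.pos 1 hk (c j) h1
      rw [Finsupp.smul_apply]
      have h3 : c' j = ((c j).val / p ^ 1 : ℕ) := by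
        simp only [c', Finsupp.mapRange_apply]
      rw [h3]
      conv_lhs => rw [h2]
      rw [pow_one]
    set g₂ := g₁ - Φ c' with hg₂
    have hg₂C : p • g₂ ∈ C := by
      rw [hg₂, smul_sub, ← map_nsmul, ← hcc']
      exact hc1
    have hg₂D : ∀ c, g₂ - Φ c ∉ C := by
      intro c₀ h0
      apply hmin (c' + c₀)
      rw [map_add, ← sub_sub]
      exact h0
    -- extend `C`
    have hnotS : ¬ (C ⊔ AddSubgroup.zmultiples g₂ ∈ S) := by
      intro hS
      have h1 := hmax hS le_sup_left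
      have h2 : g₂ ∈ C := h1 ((le_sup_right : _ ≤ C ⊔ AddSubgroup.zmultiples g₂)
        (AddSubgroup.mem_zmultiples g₂))
      exact hg₂D 0 (by simpa using h2)
    apply hnotS
    refine ⟨fun x => (le_sup_left : C ≤ _) (hC1 x), ?_⟩
    intro c'' hc''
    rw [AddSubgroup.mem_sup] at hc''
    obtain ⟨d', hd', z, hz, hdz⟩ := hc''
    obtain ⟨n, rfl⟩ := AddSubgroup.mem_zmultiples_iff.1 hz
    by_cases hpn : (p : ℤ) ∣ n
    · obtain ⟨n', rfl⟩ := hpn
      apply hC2
      rw [← hdz]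
      apply C.add_mem hd'
      rw [mul_comm, mul_smul, natCast_zsmul]
      exact C.zsmul_mem hg₂C _
    · exfalso
      have hcop : IsCoprime n (p : ℤ) := by
        rw [Int.isCoprime_iff_gcd_eq_one]
        have := (Nat.Prime.coprime_iff_not_dvd hp).2 (fun h => hpn (by
          rwa [← Int.natCast_dvd_natCast, Int.dvd_natAbs] at h))
        rw [Int.gcd_comm]
        exact this
      obtain ⟨u, v, huv⟩ := hcop
      apply hg₂D (u • c'')
      have e : g₂ - Φ (u • c'') = v • (p • g₂) - u • d' := by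
        have h5 : (u * n + v * p) • g₂ = g₂ := by rw [huv, one_smul]
        rw [add_smul, mul_smul, mul_smul, natCast_zsmul] at h5
        rw [map_zsmul, ← hdz, smul_add]
        nth_rewrite 1 [← h5]
        abel
      rw [e]
      exact C.sub_mem (C.zsmul_mem hg₂C _) (C.zsmul_mem hd' _)
  choose π hπ using hdec
  have huniq : ∀ g c, g - Φ c ∈ C → π g = c := by
    intro g c hc
    have h1 := C.sub_mem hc (hπ g)
    have h2 : g - Φ c - (g - Φ (π g)) = Φ (π g - c) := by
      rw [map_sub]; abel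
    rw [h2] at h1
    exact sub_eq_zero.1 (hC2 _ h1)
  refine ⟨AddMonoidHom.mk' π ?_, ?_⟩
  · intro g h
    apply huniq
    have e : g + h - Φ (π g + π h) = (g - Φ (π g)) + (h - Φ (π h)) := by
      rw [map_add]; abel
    rw [e]
    exact C.add_mem (hπ g) (hπ h)
  · intro c
    apply huniq
    simp [C.zero_mem]

/-- the `p`-torsion of `p ^ i G` -/
def soc (G : Type*) [AddCommGroup G] (p i : ℕ) : AddSubgroup G where
  carrier := {x | p • x = 0 ∧ ∃ y, p ^ i • y = x}
  zero_mem' := ⟨smul_zero _, 0, smul_zero _⟩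
  add_mem' := by
    rintro a b ⟨ha, a', rfl⟩ ⟨hb, b', rfl⟩
    exact ⟨by rw [smul_add, ha, hb, add_zero], a' + b', smul_add _ _ _⟩
  neg_mem' := by
    rintro a ⟨ha, a', rfl⟩
    exact ⟨by rw [smul_neg, ha, neg_zero], -a', smul_neg _ _⟩

theorem mem_soc {G : Type*} [AddCommGroup G] {p i : ℕ} {x : G} :
    x ∈ soc G p i ↔ p • x = 0 ∧ ∃ y, p ^ i • y = x := Iff.rfl

/-- quotients of successive socles -/
abbrev socQ (G : Type*) [AddCommGroup G] (p i : ℕ) : Type _ :=
  soc G p i ⧸ (soc G p (i + 1)).addSubgroupOf (soc G p i)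

theorem smul_socQ {G : Type*} [AddCommGroup G] {p i : ℕ} (x : socQ G p i) : p • x = 0 := by
  obtain ⟨y, rfl⟩ := QuotientAddGroup.mk_surjective x
  rw [← QuotientAddGroup.mk_nsmul]
  have : p • y = 0 := Subtype.ext (mem_soc.1 y.2).1
  rw [this]
  rfl

/-- A group of exponent `p` of cardinality at least the continuum has an independent family of
cardinality the continuum. -/
theorem exists_indep_family_aux {p : ℕ} [Fact p.Prime] {V : Type u} [AddCommGroup V]
    [Module (ZMod p) V] (h : Cardinal.continuum.{u} ≤ #V) :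
    ∃ (J : Type u) (v : J → V), #J = Cardinal.continuum.{u} ∧
      ∀ d : J →₀ ℤ, (d.sum fun j n => n • v j) = 0 → ∀ j, (p : ℤ) ∣ d j := by
  classical
  let X := Module.Basis.ofVectorSpaceIndex (ZMod p) V
  let B : Module.Basis X (ZMod p) V := Module.Basis.ofVectorSpace (ZMod p) V
  have hX : Cardinal.continuum.{u} ≤ #X := by
    rw [B.repr.toEquiv.cardinal_eq] at h
    rcases finite_or_infinite X with hX | hX
    · exfalso
      have : Fintype X := Fintype.ofFinite X
      have : Finite (X →₀ ZMod p) := Finite.of_equiv _ Finsupp.equivFunOnFinite.symm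
      have h1 := Cardinal.lt_aleph0_of_finite (X →₀ ZMod p)
      exact absurd (h.trans_lt h1) (not_lt.2 Cardinal.aleph0_le_continuum)
    · rw [Cardinal.mk_finsupp_lift_of_infinite] at h
      rw [Cardinal.lift_uzero, le_max_iff] at h
      rcases h with h | h
      · exact h
      · exfalso
        have h1 : Cardinal.lift.{u} #(ZMod p) < Cardinal.aleph0.{u} := by
          rw [Cardinal.lift_lt_aleph0]
          exact Cardinal.lt_aleph0_of_finite _
        exact absurd (h.trans_lt h1) (not_lt.2 Cardinal.aleph0_le_continuum)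
  obtain ⟨J, hJ⟩ := Cardinal.le_mk_iff_exists_set.1 hX
  have hli : LinearIndependent (ZMod p) (fun j : J => B j) :=
    B.linearIndependent.comp _ Subtype.val_injective
  refine ⟨J, fun j => B j, hJ, ?_⟩
  intro d hd
  have h2 : ∑ j ∈ d.support, (d j : ZMod p) • B j = 0 := by
    rw [← hd, Finsupp.sum]
    apply Finset.sum_congr rfl
    intro j _
    rw [Int.cast_smul_eq_zsmul]
  have h3 := linearIndependent_iff'.1 hli d.support (fun j => (d j : ZMod p)) h2
  intro j
  by_cases hj : j ∈ d.support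
  · exact (ZMod.intCast_zmod_eq_zero_iff_dvd _ _).1 (h3 j hj)
  · rw [Finsupp.notMem_support_iff.1 hj]
    exact dvd_zero _

theorem exists_indep_family {p : ℕ} (hp : p.Prime) {V : Type u} [AddCommGroup V]
    (hV : ∀ v : V, p • v = 0) (h : Cardinal.continuum.{u} ≤ #V) :
    ∃ (J : Type u) (v : J → V), #J = Cardinal.continuum.{u} ∧
      ∀ d : J →₀ ℤ, (d.sum fun j n => n • v j) = 0 → ∀ j, (p : ℤ) ∣ d j :=
  @exists_indep_family_aux p ⟨hp⟩ V _ (AddCommGroup.zmodModule hV) h

theorem exists_indep {G : Type u} [AddCommGroup G] {p : ℕ} (hp : p.Prime) (i : ℕ)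
    (h : Cardinal.continuum.{u} ≤ #(socQ G p i)) :
    ∃ (J : Type u) (y : J → G), #J = Cardinal.continuum.{u} ∧ (∀ j, p ^ (i + 1) • y j = 0) ∧
      ∀ (d : J →₀ ℤ), (d.sum fun j n => n • (p ^ i • y j)) ∈ soc G p (i + 1) →
        ∀ j, (p : ℤ) ∣ d j := by
  classical
  obtain ⟨J, v, hJ, hv⟩ := exists_indep_family hp smul_socQ h
  -- representatives
  have hrep : ∀ j : J, ∃ y : G, ∃ hy : p ^ i • y ∈ soc G p i,
      (QuotientAddGroup.mk (⟨p ^ i • y, hy⟩ : soc G p i) : socQ G p i) = v j := by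
    intro j
    obtain ⟨x, hx⟩ := QuotientAddGroup.mk_surjective (v j)
    obtain ⟨y, hy⟩ := (mem_soc.1 x.2).2
    have e : (⟨p ^ i • y, hy ▸ x.2⟩ : soc G p i) = x := Subtype.ext hy
    exact ⟨y, hy ▸ x.2, by rw [e, hx]⟩
  choose y hy hyB using hrep
  refine ⟨J, y, hJ, ?_, ?_⟩
  · intro j
    have := (mem_soc.1 (hy j)).1
    rwa [smul_smul, ← pow_succ'] at this
  · intro d hd
    apply hv
    let x : J → soc G p i := fun j => ⟨p ^ i • y j, hy j⟩
    have h1 : (QuotientAddGroup.mk (d.sum fun j n => n • x j) : socQ G p i) = 0 := by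
      rw [QuotientAddGroup.eq_zero_iff, AddSubgroup.mem_addSubgroupOf]
      have : ((d.sum fun j n => n • x j : soc G p i) : G) = d.sum fun j n => n • (p ^ i • y j) := by
        rw [Finsupp.sum, AddSubgroup.val_finsetSum]
        rfl
      rw [this]
      exact hd
    rw [← h1, Finsupp.sum, Finsupp.sum]
    have h3 := map_sum (QuotientAddGroup.mk' ((soc G p (i + 1)).addSubgroupOf (soc G p i)))
      (fun j => d j • x j) d.support
    refine Eq.trans ?_ h3.symm
    apply Finset.sum_congr rfl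
    intro j _
    rw [map_zsmul]
    congr 1
    exact (hyB j).symm

/-- A homomorphism on the free `ZMod e`-module with prescribed values. -/
theorem exists_hom_finsupp' {G κ : Type*} [AddCommGroup G] (e : ℕ) (c : κ → G)
    (hc : ∀ i, e • c i = 0) :
    ∃ h : (κ →₀ ZMod e) →+ G, ∀ i, h (Finsupp.single i 1) = c i := by
  have hz : ∀ i, (zmultiplesHom G (c i)) (e : ℤ) = 0 := by
    intro i
    rw [zmultiplesHom_apply, natCast_zsmul]
    exact hc i
  refine ⟨Finsupp.liftAddHom fun i => ZMod.lift e ⟨zmultiplesHom G (c i), hz i⟩, fun i => ?_⟩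
  rw [Finsupp.liftAddHom_apply_single]
  have := ZMod.lift_coe e ⟨zmultiplesHom G (c i), hz i⟩ 1
  simpa using this

theorem pure_of_indep {G J : Type*} [AddCommGroup G] {p : ℕ} (hp : p.Prime) (i : ℕ) (y : J → G)
    (hind : ∀ (d : J →₀ ℤ), (d.sum fun j n => n • (p ^ i • y j)) ∈ soc G p (i + 1) →
      ∀ j, (p : ℤ) ∣ d j)
    (Φ : (J →₀ ZMod (p ^ (i + 1))) →+ G) (hΦ : ∀ j, Φ (Finsupp.single j 1) = y j)
    (c : J →₀ ZMod (p ^ (i + 1))) (g : G) (hc : Φ c = p ^ (i + 1) • g) : c = 0 := by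
  classical
  by_contra hc0
  have hpk : ∀ c : J →₀ ZMod (p ^ (i + 1)), p ^ (i + 1) • c = 0 := by
    intro c
    ext j
    rw [Finsupp.smul_apply, nsmul_eq_mul, ZMod.natCast_self, zero_mul]
    rfl
  have hex : ∃ m, p ^ m • c = 0 := ⟨i + 1, hpk c⟩
  obtain ⟨m, hm⟩ : ∃ m, Nat.find hex = m + 1 := by
    refine Nat.exists_eq_succ_of_ne_zero fun h0 => ?_
    have := Nat.find_spec hex
    rw [h0, pow_zero, one_smul] at this
    exact hc0 this
  have h1 : p ^ (m + 1) • c = 0 := by rw [← hm]; exact Nat.find_spec hex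
  have h2 : p ^ m • c ≠ 0 := Nat.find_min hex (by omega)
  set c' := p ^ m • c with hc'
  have h3 : p • c' = 0 := by rw [hc', smul_smul, ← pow_succ']; exact h1
  have h3' : ∀ j, p • c' j = 0 := fun j => by
    have := DFunLike.congr_fun h3 j
    simpa using this
  have hdiv : ∀ j, c' j = p ^ i • ((((c' j).val / p ^ i : ℕ)) : ZMod (p ^ (i + 1))) := by
    intro j
    apply zmod_div hp.pos i (Nat.le_succ i)
    have : i + 1 - i = 1 := by omega
    rw [this, pow_one]
    exact h3' j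
  let d : J →₀ ℤ := c'.mapRange (fun x => ((x.val / p ^ i : ℕ) : ℤ)) (by simp)
  let Φ' : (J →₀ ℤ) →+ (J →₀ ZMod (p ^ (i + 1))) :=
    Finsupp.mapRange.addMonoidHom (Int.castAddHom _)
  have hdj : ∀ j, ((d j : ℤ) : ZMod (p ^ (i + 1))) =
      (((c' j).val / p ^ i : ℕ) : ZMod (p ^ (i + 1))) := by
    intro j
    have h5 : d j = (((c' j).val / p ^ i : ℕ) : ℤ) := Finsupp.mapRange_apply (hf := by simp)
    rw [h5, Int.cast_natCast]
  have hcd : c' = p ^ i • Φ' d := by
    ext j
    have h8 : (p ^ i • Φ' d) j = p ^ i • (Φ' d j) := rfl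
    have h9 : Φ' d j = ((d j : ℤ) : ZMod (p ^ (i + 1))) := rfl
    rw [h8, h9, hdj]
    exact hdiv j
  have hΦΦ : Φ (Φ' d) = d.sum fun j n => n • y j := by
    have h4 : (Φ.comp Φ') = Finsupp.liftAddHom (fun j => (zmultiplesHom G) (y j)) := by
      ext j
      have : Φ' (Finsupp.single j 1) = Finsupp.single j 1 := by
        have h5 : Φ' (Finsupp.single j 1) = Finsupp.single j ((Int.castAddHom _) (1 : ℤ)) :=
          Finsupp.mapRange_single (hf := map_zero _)
        rw [h5]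
        simp
      simp [this, hΦ]
    have h5 := DFunLike.congr_fun h4 d
    rw [AddMonoidHom.comp_apply, Finsupp.liftAddHom_apply] at h5
    rw [h5]
    rfl
  have hmem : (d.sum fun j n => n • (p ^ i • y j)) ∈ soc G p (i + 1) := by
    have e1 : (d.sum fun j n => n • (p ^ i • y j)) = Φ c' := by
      conv_rhs => rw [hcd]
      rw [map_nsmul, hΦΦ, Finsupp.smul_sum]
      apply Finsupp.sum_congr
      intro j _
      exact smul_comm _ _ _
    rw [e1]
    refine ⟨?_, p ^ m • g, ?_⟩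
    · rw [← map_nsmul, h3, map_zero]
    · rw [hc', map_nsmul, hc, smul_comm]
  have hdvd := hind d hmem
  apply h2
  ext j
  obtain ⟨r, hr⟩ := hdvd j
  rw [hdiv j, ← hdj, hr, nsmul_eq_mul, Int.cast_mul, ← mul_assoc]
  have h7 : ((p ^ i : ℕ) : ZMod (p ^ (i + 1))) * ((p : ℤ) : ZMod (p ^ (i + 1))) = 0 := by
    rw [Int.cast_natCast, ← Nat.cast_mul, ← pow_succ, ZMod.natCast_self]
  rw [h7, zero_mul]
  rfl

/-- characters separate points -/
theorem exists_character {A : Type*} [AddCommGroup A] {a : A} (ha : a ≠ 0) :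
    ∃ φ : A →+ Circ, φ a ≠ 0 := by
  obtain ⟨c, hc⟩ := CharacterModule.exists_character_apply_ne_zero_of_ne_zero ha
  let m : AddCircle (1 : ℚ) →+ AddCircle (1 : ℝ) :=
    QuotientAddGroup.map (AddSubgroup.zmultiples (1:ℚ)) (AddSubgroup.zmultiples (1:ℝ))
      (Rat.castHom ℝ).toAddMonoidHom (by
        intro x hx
        obtain ⟨n, rfl⟩ := AddSubgroup.mem_zmultiples_iff.1 hx
        rw [AddSubgroup.mem_comap]
        exact AddSubgroup.mem_zmultiples_iff.2 ⟨n, by simp⟩)
  have hm : ∀ x, m x = 0 → x = 0 := by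
    intro x hx
    obtain ⟨q, rfl⟩ := QuotientAddGroup.mk_surjective x
    have h1 : ((q : ℝ) : AddCircle (1 : ℝ)) = 0 := hx
    have h2 : (q : ℝ) ∈ AddSubgroup.zmultiples (1:ℝ) := (QuotientAddGroup.eq_zero_iff _).1 h1
    obtain ⟨n, hn⟩ := AddSubgroup.mem_zmultiples_iff.1 h2
    apply (QuotientAddGroup.eq_zero_iff _).2
    refine AddSubgroup.mem_zmultiples_iff.2 ⟨n, ?_⟩
    have h3 : (n : ℝ) = (q : ℝ) := by simpa using hn
    have h4 : (n : ℚ) = q := by exact_mod_cast h3
    simpa using h4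
  exact ⟨m.comp c, fun h => hc (hm _ h)⟩

/-- pseudocompactness of an induced topology -/
theorem PseudocompactSp.induced {X Y : Type*} [t : TopologicalSpace Y] (hY : PseudocompactSp Y)
    (ρ : X → Y) (hρ : Function.Surjective ρ) : @PseudocompactSp X (TopologicalSpace.induced ρ t) := by
  let tX := TopologicalSpace.induced ρ t
  intro f hf
  obtain ⟨s, hs⟩ := hρ.hasRightInverse
  have hsc : Continuous s := by
    rw [continuous_induced_rng]
    have : ρ ∘ s = id := funext hs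
    rw [this]
    exact continuous_id
  obtain ⟨C, hC⟩ := hY (f ∘ s) (hf.comp hsc)
  refine ⟨C, fun x => ?_⟩
  have hins : Inseparable x (s (ρ x)) := by
    rw [← Topology.IsInducing.inseparable_iff (f := ρ) ⟨rfl⟩, hs]
  have : f x = f (s (ρ x)) := (hins.map hf).eq
  rw [this]
  exact hC (ρ x)

/-- **Case (b)**: some quotient of socles has at least continuum many elements. -/
theorem caseB {G : Type u} [AddCommGroup G] [t : TopologicalSpace G] [IsTopologicalAddGroup G]
    [T2Space G] (hG : PseudocompactSp G) {p : ℕ} (hp : p.Prime) (i : ℕ)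
    (h : Cardinal.continuum.{u} ≤ #(socQ G p i)) : HasNonSel G := by
  classical
  obtain ⟨J, y, hJ, hy, hind⟩ := exists_indep hp i h
  set e := p ^ (i + 1) with he
  have he1 : e ≠ 1 := (Nat.one_lt_pow (Nat.succ_ne_zero i) hp.one_lt).ne'
  have hne : NeZero e := ⟨(pow_pos hp.pos _).ne'⟩
  have hnt : Nontrivial (ZMod e) := by
    have : Fact (1 < e) := ⟨Nat.one_lt_pow (Nat.succ_ne_zero i) hp.one_lt⟩
    infer_instance
  obtain ⟨Φ, hΦ⟩ := exists_hom_finsupp' e y hy
  obtain ⟨π, hπ⟩ := exists_retraction hp (Nat.succ_pos i) Φ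
    (fun c g hc => pure_of_indep hp i y hind Φ hΦ c g hc)
  have hJinf : Infinite J := by
    rw [Cardinal.infinite_iff, hJ]
    exact Cardinal.aleph0_le_continuum
  obtain ⟨eJ⟩ : Nonempty (J ≃ J ⊕ J) := by
    rw [← Cardinal.eq, Cardinal.mk_sum]
    simp
  let θ : (J →₀ ZMod e) ≃+ (J →₀ ZMod e) × (J →₀ ZMod e) :=
    (Finsupp.domCongr eJ).trans Finsupp.sumFinsuppAddEquivProdFinsupp
  let π₁ : G →+ (J →₀ ZMod e) := (AddMonoidHom.fst _ _).comp (θ.toAddMonoidHom.comp π)
  let π₂ : G →+ (J →₀ ZMod e) := (AddMonoidHom.snd _ _).comp (θ.toAddMonoidHom.comp π)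
  let ρ : G →+ G := AddMonoidHom.id G - Φ.comp π + Φ.comp π₂
  have hρ : ∀ g, ρ g = g - Φ (π g) + Φ (θ (π g)).2 := fun g => rfl
  have hπ₁ : ∀ g, π₁ g = (θ (π g)).1 := fun g => rfl
  have hker : ∀ g, ρ g = 0 → π₁ g = 0 → g = 0 := by
    intro g h1 h2
    rw [hρ] at h1
    have h3 : π (g - Φ (π g) + Φ (θ (π g)).2) = 0 := by rw [h1, map_zero]
    rw [map_add, map_sub, hπ, hπ, sub_self, zero_add] at h3
    have h4 : θ (π g) = 0 := Prod.ext h2 h3
    have h5 : π g = 0 := by
      rw [← map_zero θ] at h4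
      exact θ.injective h4
    rw [h5] at h1
    simpa using h1
  have hsurj : Function.Surjective ρ := by
    intro h
    refine ⟨h - Φ (π h) + Φ (θ.symm (0, π h)), ?_⟩
    have e1 : π (h - Φ (π h) + Φ (θ.symm (0, π h))) = θ.symm (0, π h) := by
      rw [map_add, map_sub, hπ, hπ, sub_self, zero_add]
    rw [hρ, e1, θ.apply_symm_apply]
    abel
  have hsec : ∀ c : J →₀ ZMod e, ρ (Φ (θ.symm (c, 0))) = 0 ∧ π₁ (Φ (θ.symm (c, 0))) = c := by
    intro c
    refine ⟨?_, ?_⟩
    · rw [hρ, hπ, θ.apply_symm_apply]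
      simp
    · rw [hπ₁, hπ, θ.apply_symm_apply]
  have hP : #(J →₀ ZMod e) ≤ Cardinal.continuum.{u} := by
    rw [Cardinal.mk_finsupp_lift_of_infinite, hJ, Cardinal.lift_uzero, max_le_iff]
    refine ⟨le_rfl, ?_⟩
    have h1 : Cardinal.lift.{u} #(ZMod e) < Cardinal.aleph0.{u} := by
      rw [Cardinal.lift_lt_aleph0]
      exact Cardinal.lt_aleph0_of_finite _
    exact h1.le.trans Cardinal.aleph0_le_continuum
  obtain ⟨f, g₀, hfg, hExt⟩ := exists_family (S := ℝ) e (AddMonoidHom.id (J →₀ ZMod e))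
    Function.injective_id he1 hP hJ.ge (by rw [Cardinal.mk_real])
  have hIdx := infinite_Idx (J →₀ ZMod e)
  have heP : ∀ c : J →₀ ZMod e, e • c = 0 := by
    intro c
    ext j
    rw [Finsupp.smul_apply, nsmul_eq_mul, ZMod.natCast_self, zero_mul]
    rfl
  have hnb : ∀ V ∈ @nhds G (TopologicalSpace.induced ρ t) 0, ∀ g, ρ g = 0 → g ∈ V := by
    intro V hV g hg
    rw [nhds_induced, Filter.mem_comap] at hV
    obtain ⟨U, hU, hUV⟩ := hV
    apply hUV
    rw [mem_preimage, hg]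
    rw [map_zero] at hU
    exact mem_of_mem_nhds hU
  have hsp : ∀ g, ρ g ≠ 0 → ∃ U ∈ @nhds G (TopologicalSpace.induced ρ t) 0, g ∉ U := by
    intro g hg
    refine ⟨ρ ⁻¹' {ρ g}ᶜ, ?_, by simp⟩
    rw [nhds_induced, Filter.mem_comap]
    refine ⟨{ρ g}ᶜ, ?_, subset_rfl⟩
    rw [map_zero]
    exact isOpen_compl_singleton.mem_nhds (by simpa using (Ne.symm hg))
  refine @finish G _ (TopologicalSpace.induced ρ t) (topologicalAddGroup_induced ρ)
    (hG.induced ρ hsurj) _ _ _ _ hIdx e he1 π₁ f hExt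
    (fun α => (f α).comp π₁) ?_ ?_ id Function.injective_id (fun _ _ => rfl) ?_
  · intro k g
    change e • f k (π₁ g) = 0
    rw [← map_nsmul, heP, map_zero]
  · intro V hV B hB v hv
    obtain ⟨j, hj, -⟩ := hfg B hB v hv ∅ countable_empty (fun _ => 0) (fun _ => smul_zero _)
    refine ⟨Φ (θ.symm (Finsupp.single j 1, 0)), ?_, ?_⟩
    · intro k
      exact hnb _ (hV k) _ (hsec _).1
    · intro α hα
      change f α (π₁ _) = _
      rw [(hsec _).2]
      exact hj α hα
  · intro g hg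
    by_cases h1 : ρ g = 0
    · right
      have h2 : π₁ g ≠ 0 := fun h2 => hg (hker g h1 h2)
      obtain ⟨φ, hφ⟩ := exists_character h2
      obtain ⟨α, hα⟩ := hExt φ (fun _ => π₁ g)
      refine ⟨α, ?_⟩
      change f α (π₁ g) ≠ 0
      rw [hα 0]
      exact hφ
    · left
      exact hsp g h1

end Pool.Agent.H80Pseudo
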