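import Mathlib
import Pool.Agent.Lib.H80Pseudo.CaseB

/-!
# Case (c), part 1: lower bound for the torsion-free rank
-/

open Set Filter Topology Cardinal

universe u

namespace Pool.Agent.H80Pseudo

section Card

theorem mk_finsupp_lt {ι : Type u} {R : Type} [Zero R] [Nontrivial R] (hR : #R ≤ Cardinal.aleph0)
    (h : #ι < Cardinal.continuum.{u}) : #(ι →₀ R) < Cardinal.continuum.{u} := by
  rcases finite_or_infinite ι with hι | hι
  · have h1 : #(ι →₀ R) ≤ Cardinal.aleph0.{u} := by
      have : Fintype ι := Fintype.ofFinite ι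
      rw [(Finsupp.equivFunOnFinite (α := ι) (M := R)).cardinal_eq]
      have hc : Countable R := by rwa [← Cardinal.mk_le_aleph0_iff]
      exact Cardinal.mk_le_aleph0_iff.2 inferInstance
    exact h1.trans_lt Cardinal.aleph0_lt_continuum
  · rw [Cardinal.mk_finsupp_lift_of_infinite, Cardinal.lift_uzero, max_lt_iff]
    refine ⟨h, ?_⟩
    have : Cardinal.lift.{u} #R ≤ Cardinal.aleph0.{u} := by
      rw [Cardinal.lift_le_aleph0]; exact hR
    exact this.trans_lt Cardinal.aleph0_lt_continuum

theorem mk_finsupp_le {ι : Type u} {R : Type} [Zero R] [Nontrivial R] (hR : #R ≤ Cardinal.aleph0)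
    (h : #ι ≤ Cardinal.continuum.{u}) : #(ι →₀ R) ≤ Cardinal.continuum.{u} := by
  rcases h.lt_or_eq with h | h
  · exact (mk_finsupp_lt hR h).le
  · have hι : Infinite ι := by
      rw [Cardinal.infinite_iff, h]; exact Cardinal.aleph0_le_continuum
    rw [Cardinal.mk_finsupp_lift_of_infinite, Cardinal.lift_uzero, max_le_iff]
    refine ⟨h.le, ?_⟩
    have : Cardinal.lift.{u} #R ≤ Cardinal.aleph0.{u} := by
      rw [Cardinal.lift_le_aleph0]; exact hR
    exact this.trans Cardinal.aleph0_le_continuum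

theorem mk_closure_range_le {G : Type u} [AddCommGroup G] {ι : Type u} (b : ι → G) :
    #(AddSubgroup.closure (range b)) ≤ #(ι →₀ ℤ) := by
  have hsurj : Function.Surjective (fun c : ι →₀ ℤ =>
      (⟨c.sum fun i n => n • b i, (mem_closure_range_iff b _).2 ⟨c, rfl⟩⟩ :
        AddSubgroup.closure (range b))) := by
    rintro ⟨g, hg⟩
    obtain ⟨c, rfl⟩ := (mem_closure_range_iff b g).1 hg
    exact ⟨c, rfl⟩
  exact Cardinal.mk_le_of_surjective hsurj

theorem mk_int_le : #ℤ ≤ Cardinal.aleph0 := Cardinal.mk_le_aleph0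
theorem mk_rat_le : #ℚ ≤ Cardinal.aleph0 := Cardinal.mk_le_aleph0

end Card

variable {G : Type u} [AddCommGroup G]

theorem chn_restrict {W W' : ℕ → Set G} (hW : Chn W) (hW' : Chn W') :
    Chn (fun k => ((↑) : hW.core → G) ⁻¹' W' k) where
  zero_mem n := hW'.zero_mem n
  neg_mem n _ hx := hW'.neg_mem n _ hx
  add_mem n _ _ hx hy := hW'.add_mem n _ _ hx hy

theorem cptChn_restrict {W W' : ℕ → Set G} (hW : Chn W) (hsub : ∀ k, W' k ⊆ W k)
    (hc : CptChn W') : CptChn (fun k => ((↑) : hW.core → G) ⁻¹' W' k) := by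
  intro x
  obtain ⟨a, ha⟩ := hc (fun k => (x k : G))
  have hacore : a ∈ hW.core := by
    rw [hW.mem_core]
    intro n
    obtain ⟨k, hk⟩ := (ha (n+1)).exists
    have h1 : (x k : G) - a ∈ W (n+1) := hsub _ hk
    have h2 : (x k : G) ∈ W (n+1) := hW.core_subset _ (x k).2
    have e : a = (x k : G) - ((x k : G) - a) := by abel
    rw [e]
    exact hW.sub_mem n h2 h1
  exact ⟨⟨a, hacore⟩, fun n => ha n⟩

/-- the preimage of a core under multiplication is closed -/
theorem closed_preimage {W : ℕ → Set G} (hW : Chn W) (M : ℕ) {x : G} (hx : M • x ∉ hW.core) :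
    ∃ n, ∀ y ∈ W n, M • (x + y) ∉ hW.core := by
  rw [hW.mem_core] at hx
  push Not at hx
  obtain ⟨n, hn⟩ := hx
  refine ⟨n + 1 + M, fun y hy hmem => hn ?_⟩
  have h1 : M • y ∈ W (n+1) := hW.smul_mem (n+1) M hy
  have h2 : M • (x + y) ∈ W (n+1) := hW.core_subset _ hmem
  have e : M • x = M • (x + y) - M • y := by rw [smul_add]; abel
  rw [e]
  exact hW.sub_mem n h2 h1

theorem continuum_eq_lift : Cardinal.continuum.{u} = Cardinal.lift.{u} #(ℕ → Bool) := by
  simp

variable [TopologicalSpace G] [IsTopologicalAddGroup G] [T2Space G]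

/-- If `M • core` is infinite then a `G_δ`-dense subgroup has at least continuum many multiples. -/
theorem continuum_le_of_infinite (hG : PseudocompactSp G) (A : AddSubgroup G)
    {W : ℕ → Set G} (hW : Chn W) (hWn : ∀ k, W k ∈ 𝓝 (0 : G))
    (hD : ∀ V : ℕ → Set G, (∀ k, V k ∈ 𝓝 (0 : G)) → ∀ x ∈ hW.core,
        ∃ a ∈ A, a ∈ hW.core ∧ ∀ k, a - x ∈ V k) (M : ℕ)
    (hinf : ((fun x => M • x) '' (hW.core : Set G)).Infinite) :
    Cardinal.continuum.{u} ≤ #((fun x => M • x) '' (A : Set G) : Set G) := by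
  classical
  -- a sequence of distinct elements
  have hinf' := hinf.to_subtype
  let z' : ℕ ↪ ((fun x => M • x) '' (hW.core : Set G) : Set G) := Infinite.natEmbedding _
  have hz : ∀ n, ∃ x ∈ hW.core, M • x = (z' n : G) := fun n => (z' n).2
  choose x hx hxz using hz
  have hdist : ∀ m n, m ≠ n → M • x m - M • x n ≠ 0 := by
    intro m n hmn h
    rw [hxz, hxz, sub_eq_zero] at h
    exact hmn (z'.injective (Subtype.ext h))
  let U : ℕ → Set G := fun k =>
    if (Nat.unpair k).1 = (Nat.unpair k).2 then univ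
    else {M • x (Nat.unpair k).1 - M • x (Nat.unpair k).2}ᶜ
  have hU : ∀ k, U k ∈ 𝓝 (0 : G) := by
    intro k
    simp only [U]
    split_ifs with h
    · exact univ_mem
    · exact isOpen_compl_singleton.mem_nhds (by simpa using (hdist _ _ h).symm)
  obtain ⟨W', hW', hWn', hW'sub⟩ := exists_chn (fun k => U k ∩ W k) (fun k => inter_mem (hU k) (hWn k))
  have hnot : ∀ m n, m ≠ n → M • x m - M • x n ∉ hW'.core := by
    intro m n hmn hmem
    have h1 := (hW'sub (Nat.pair m n) (hW'.core_subset _ hmem)).1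
    simp only [U, Nat.unpair_pair] at h1
    rw [if_neg hmn] at h1
    exact h1 rfl
  have hcW' := hG.cptChn hW' hWn'
  let L : AddSubgroup hW.core :=
    (hW'.core.comap (nsmulAddMonoidHom M : G →+ G)).comap hW.core.subtype
  have hmemL : ∀ y : hW.core, y ∈ L ↔ M • (y : G) ∈ hW'.core := fun y => Iff.rfl
  have hLinf : ¬ Finite (hW.core ⧸ L) := by
    intro hfin
    have hinj : Function.Injective (fun n : ℕ => (QuotientAddGroup.mk ⟨x n, hx n⟩ : hW.core ⧸ L)) := by
      intro m n hmn
      by_contra hne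
      have h1 : (QuotientAddGroup.mk ⟨x n, hx n⟩ : hW.core ⧸ L) = QuotientAddGroup.mk ⟨x m, hx m⟩ :=
        hmn.symm
      rw [QuotientAddGroup.eq, hmemL] at h1
      apply hnot m n hne
      have e : M • (((-(⟨x n, hx n⟩ : hW.core) + ⟨x m, hx m⟩ : hW.core)) : G) =
          M • x m - M • x n := by
        have : (((-(⟨x n, hx n⟩ : hW.core) + ⟨x m, hx m⟩ : hW.core)) : G) = - x n + x m := rfl
        rw [this, smul_add, smul_neg]; abel
      rwa [e] at h1
    exact not_injective_infinite_finite _ hinj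
  obtain ⟨X, hX⟩ := (chn_restrict hW hW').exists_cantor_family
    (cptChn_restrict hW (fun k => (hW'sub k).trans inter_subset_right) hcW') (fun _ => L)
    monotone_const (fun _ => hLinf) (by
      intro _ y hy
      rw [hmemL] at hy
      obtain ⟨n, hn⟩ := closed_preimage hW' M hy
      refine ⟨n, fun w hw => ?_⟩
      rw [hmemL]
      exact hn w hw)
  -- approximate by elements of `A`
  have happ : ∀ r, ∃ a ∈ A, a - (X r : G) ∈ hW'.core := by
    intro r
    obtain ⟨a, ha, -, haW⟩ := hD W' hWn' (X r) (X r).2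
    exact ⟨a, ha, hW'.mem_core.2 haW⟩
  choose a haA haX using happ
  have hinj : Function.Injective (fun r => (⟨M • a r, mem_image_of_mem _ (haA r)⟩ :
      ((fun x => M • x) '' (A : Set G) : Set G))) := by
    intro r r' hrr
    by_contra hne
    have h0 : M • a r = M • a r' := congrArg Subtype.val hrr
    apply hX r r' hne 0
    rw [hmemL]
    have h1 : M • (((X r - X r' : hW.core)) : G) =
        -(M • (a r - (X r : G))) + (M • (a r' - (X r' : G))) := by
      have : (((X r - X r' : hW.core)) : G) = (X r : G) - (X r' : G) := rfl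
      rw [this, smul_sub, smul_sub, smul_sub, h0]; abel
    rw [h1]
    exact hW'.core.add_mem (hW'.core.neg_mem (hW'.core.nsmul_mem (haX r) M))
      (hW'.core.nsmul_mem (haX r') M)
  have h2 := Cardinal.mk_le_of_injective (α := ULift.{u} (ℕ → Bool)) (hinj.comp ULift.down_injective)
  rw [Cardinal.mk_uLift, ← continuum_eq_lift] at h2
  exact h2

/-- An infinite Hausdorff pseudocompact group has at least continuum many elements. -/
theorem continuum_le_mk [Infinite G] (hG : PseudocompactSp G) : Cardinal.continuum.{u} ≤ #G := by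
  have hW : Chn (fun _ : ℕ => (univ : Set G)) :=
    ⟨fun _ => trivial, fun _ _ _ => trivial, fun _ _ _ _ _ => trivial⟩
  have h := continuum_le_of_infinite hG ⊤ hW (fun _ => univ_mem) (by
    intro V hV x _
    refine ⟨x, trivial, hW.mem_core.2 fun _ => trivial, fun k => ?_⟩
    rw [sub_self]
    exact mem_of_mem_nhds (hV k)) 1 (by
    have : (fun x : G => 1 • x) '' (hW.core : Set G) = Set.univ := by
      apply eq_univ_of_forall
      intro x
      exact ⟨x, hW.mem_core.2 fun _ => trivial, one_smul _ _⟩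
    rw [this]
    exact infinite_univ)
  exact h.trans (Cardinal.mk_set_le _)

end Pool.Agent.H80Pseudo
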