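import Mathlib
import Pool.Agent.Lib.H80Pseudo.CaseC1

/-!
# Case (c), part 2: the torsion-free rank is at least the continuum
-/

open Set Filter Topology Cardinal

universe u

namespace Pool.Agent.H80Pseudo

variable {G : Type u} [AddCommGroup G]

theorem continuum_lt_mul {a b c : Cardinal.{u}} (h : a ≤ b * c) (hb : b < Cardinal.continuum.{u})
    (hc : c < Cardinal.continuum.{u}) : a < Cardinal.continuum.{u} :=
  h.trans_lt (Cardinal.mul_lt_of_lt Cardinal.aleph0_le_continuum hb hc)

/-- successive socles -/
theorem mk_soc_le (p i : ℕ) : #(soc G p i) ≤ #(socQ G p i) * #(soc G p (i + 1)) := by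
  have h1 := (AddSubgroup.addGroupEquivQuotientProdAddSubgroup
    (s := (soc G p (i + 1)).addSubgroupOf (soc G p i))).cardinal_eq
  rw [h1, Cardinal.mk_prod, Cardinal.lift_id, Cardinal.lift_id]
  apply mul_le_mul' le_rfl
  have hinj : Function.Injective (fun x : (soc G p (i + 1)).addSubgroupOf (soc G p i) =>
      (⟨((x : soc G p i) : G), x.2⟩ : soc G p (i + 1))) := by
    intro x y hxy
    have : ((x : soc G p i) : G) = ((y : soc G p i) : G) :=
      congrArg (fun z : soc G p (i + 1) => (z : G)) hxy
    exact Subtype.ext (Subtype.ext this)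
  exact Cardinal.mk_le_of_injective hinj

/-- `p`-torsion of a bounded group with small socle quotients -/
theorem mk_soc_zero_lt {p : ℕ} (hp : p.Prime) (hsoc : ∀ i, #(socQ G p i) < Cardinal.continuum.{u})
    {N : ℕ} (hN : 0 < N) (hG : ∀ g : G, N • g = 0) : #(soc G p 0) < Cardinal.continuum.{u} := by
  obtain ⟨a, m, hm, hNm⟩ := Nat.exists_eq_pow_mul_and_not_dvd hN.ne' p hp.ne_one
  have hlast : #(soc G p a) < Cardinal.continuum.{u} := by
    have hsub : Subsingleton (soc G p a) := by
      refine ⟨fun x y => ?_⟩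
      have key : ∀ z : soc G p a, z = 0 := by
        rintro ⟨z, hz⟩
        obtain ⟨h1, w, rfl⟩ := mem_soc.1 hz
        have h2 : m • (p ^ a • w) = 0 := by
          rw [smul_smul, mul_comm, ← hNm]; exact hG w
        have hcop : Nat.Coprime p m := (Nat.Prime.coprime_iff_not_dvd hp).2 hm
        have h3 : addOrderOf (p ^ a • w) ∣ 1 := by
          rw [← hcop]
          exact Nat.dvd_gcd (addOrderOf_dvd_of_nsmul_eq_zero h1) (addOrderOf_dvd_of_nsmul_eq_zero h2)
        have h4 : p ^ a • w = 0 := by
          rw [← AddMonoid.addOrderOf_eq_one_iff]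
          exact Nat.dvd_one.1 h3
        exact Subtype.ext h4
      rw [key x, key y]
    exact (Cardinal.mk_le_one_iff_set_subsingleton.2 (Set.subsingleton_coe _ |>.1 hsub)).trans_lt
      (Cardinal.one_lt_aleph0.trans Cardinal.aleph0_lt_continuum)
  have : ∀ j ≤ a, #(soc G p (a - j)) < Cardinal.continuum.{u} := by
    intro j
    induction j with
    | zero => intro _; exact hlast
    | succ j ih =>
      intro hj
      have h1 := mk_soc_le (G := G) p (a - (j + 1))
      have e : a - (j + 1) + 1 = a - j := by omega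
      rw [e] at h1
      exact continuum_lt_mul h1 (hsoc _) (ih (by omega))
  have := this a le_rfl
  rwa [Nat.sub_self] at this

/-- A bounded group with small socle quotients is small. -/
theorem mk_lt_of_bounded (hsoc : ∀ p : ℕ, p.Prime → ∀ i, #(socQ G p i) < Cardinal.continuum.{u})
    {N : ℕ} (hN : 0 < N) (hG : ∀ g : G, N • g = 0) : #G < Cardinal.continuum.{u} := by
  have key : ∀ n : ℕ, 0 < n → #{x : G | n • x = 0} < Cardinal.continuum.{u} := by
    intro n
    induction n using induction_on_primes with
    | zero => intro h; exact absurd h (lt_irrefl _)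
    | one =>
      intro _
      have : {x : G | 1 • x = 0} = {0} := by ext x; simp
      rw [this, Cardinal.mk_singleton]
      exact Cardinal.one_lt_aleph0.trans Cardinal.aleph0_lt_continuum
    | prime_mul p a hp ih =>
      intro hpa
      have ha : 0 < a := Nat.pos_of_mul_pos_left hpa |> fun h => by
        rcases Nat.eq_zero_or_pos a with h0 | h0
        · rw [h0, mul_zero] at hpa; exact absurd hpa (lt_irrefl _)
        · exact h0
      have h1 := ih ha
      have h2 := mk_soc_zero_lt hp (hsoc p hp) hN hG
      -- section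
      have hs : ∀ y : G, ∃ s : G, (∃ x : G, p • x = y) → p • s = y := by
        intro y
        by_cases h : ∃ x : G, p • x = y
        · obtain ⟨x, hx⟩ := h
          exact ⟨x, fun _ => hx⟩
        · exact ⟨0, fun h' => absurd h' h⟩
      choose s hs using hs
      have hmem1 : ∀ x : {x : G | (p * a) • x = 0}, a • (p • (x : G)) = 0 := by
        rintro ⟨x, hx⟩
        have hx' : (p * a) • x = 0 := hx
        rw [mul_comm, mul_smul] at hx'
        exact hx'
      have hmem2 : ∀ x : {x : G | (p * a) • x = 0}, (x : G) - s (p • (x : G)) ∈ soc G p 0 := by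
        intro x
        refine mem_soc.2 ⟨?_, _, one_smul _ _⟩
        rw [smul_sub, hs _ ⟨x, rfl⟩, sub_self]
      let F : {x : G | (p * a) • x = 0} → {x : G | a • x = 0} × soc G p 0 := fun x =>
        (⟨p • (x : G), hmem1 x⟩, ⟨(x : G) - s (p • (x : G)), hmem2 x⟩)
      have hF : Function.Injective F := by
        intro x y hxy
        have e1 : p • (x : G) = p • (y : G) := congrArg (fun z => ((z.1 : {x : G | a • x = 0}) : G)) hxy
        have e2 : (x : G) - s (p • (x : G)) = (y : G) - s (p • (y : G)) :=
          congrArg (fun z => ((z.2 : soc G p 0) : G)) hxy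
        rw [e1] at e2
        exact Subtype.ext (sub_left_injective e2)
      have h3 := Cardinal.mk_le_of_injective hF
      rw [Cardinal.mk_prod, Cardinal.lift_id, Cardinal.lift_id] at h3
      exact continuum_lt_mul h3 h1 h2
  have h1 := key N hN
  have : {x : G | N • x = 0} = Set.univ := eq_univ_of_forall hG
  rwa [this, Cardinal.mk_univ] at h1

variable [TopologicalSpace G] [IsTopologicalAddGroup G] [T2Space G]

/-- **The torsion-free rank** is at least the continuum if all socle quotients are small. -/
theorem continuum_le_rank [Infinite G] (hG : PseudocompactSp G) {ι : Type u} (b : ι → G)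
    (ψ : G →+ (ι →₀ ℚ)) (hb : ∀ i, ψ (b i) = Finsupp.single i 1)
    (htor : ∀ g, ∃ n : ℕ, 0 < n ∧ n • g ∈ AddSubgroup.closure (range b))
    (hsoc : ∀ p : ℕ, p.Prime → ∀ i, #(socQ G p i) < Cardinal.continuum.{u}) :
    Cardinal.continuum.{u} ≤ #ι := by
  classical
  by_contra hlt
  rw [not_le] at hlt
  set B := AddSubgroup.closure (range b) with hB
  have hBlt : #B < Cardinal.continuum.{u} :=
    (mk_closure_range_le b).trans_lt (mk_finsupp_lt mk_int_le hlt)
  let A : ℕ → AddSubgroup G := fun n => B.comap (nsmulAddMonoidHom n.factorial : G →+ G)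
  have hmemA : ∀ n g, g ∈ A n ↔ n.factorial • g ∈ B := fun n g => Iff.rfl
  have hA : ∀ g, ∃ n, g ∈ A n := by
    intro g
    obtain ⟨n, hn, hng⟩ := htor g
    refine ⟨n, ?_⟩
    rw [hmemA]
    obtain ⟨m, hm⟩ := Nat.dvd_factorial hn le_rfl
    rw [hm, mul_comm, mul_smul]
    exact B.nsmul_mem hng m
  obtain ⟨n, W, hW, hWn, hD⟩ := hG.exists_dense_layer A hA
  have hfin : ((fun x => n.factorial • x) '' (hW.core : Set G)).Finite := by
    by_contra hinf
    have h1 := continuum_le_of_infinite hG (A n) hW hWn hD n.factorial hinf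
    have h2 : (fun x => n.factorial • x) '' (A n : Set G) ⊆ B := by
      rintro _ ⟨x, hx, rfl⟩
      exact hx
    exact absurd (h1.trans (Cardinal.mk_le_mk_of_subset h2)) (not_le.2 hBlt)
  -- core is bounded
  obtain ⟨M, hM, hMc⟩ : ∃ M : ℕ, 0 < M ∧ ∀ x ∈ hW.core, M • x = 0 := by
    let K : AddSubgroup G := hW.core.map (nsmulAddMonoidHom n.factorial : G →+ G)
    have hK : Finite K := by
      have : (K : Set G) = (fun x => n.factorial • x) '' (hW.core : Set G) := rfl
      exact (this ▸ hfin : (K : Set G).Finite).to_subtype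
    refine ⟨Nat.card K * n.factorial, Nat.mul_pos Nat.card_pos n.factorial_pos, ?_⟩
    intro x hx
    have h1 : n.factorial • x ∈ K := ⟨x, hx, rfl⟩
    have h2 : Nat.card K • (⟨n.factorial • x, h1⟩ : K) = 0 := card_nsmul_eq_zero'
    rw [mul_smul]
    exact congrArg Subtype.val h2
  let L : ℕ → AddSubgroup G := fun k => hW.core.comap (nsmulAddMonoidHom k.factorial : G →+ G)
  have hmemL : ∀ k g, g ∈ L k ↔ k.factorial • g ∈ hW.core := fun k g => Iff.rfl
  have hmono : Monotone L := by
    intro k l hkl g hg
    rw [hmemL] at hg ⊢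
    obtain ⟨m, hm⟩ := Nat.factorial_dvd_factorial hkl
    rw [hm, mul_comm, mul_smul]
    exact hW.core.nsmul_mem hg m
  by_cases hL : ∀ k, ¬ Finite (G ⧸ L k)
  · obtain ⟨x, hx⟩ := hW.exists_cantor_family (hG.cptChn hW hWn) L hmono hL (by
      intro k g hg
      rw [hmemL] at hg
      exact closed_preimage hW _ hg)
    have hinj : Function.Injective (fun r => ψ (x r)) := by
      intro r r' hrr
      by_contra hne
      have h0 : ψ (x r - x r') = 0 := by rw [map_sub]; exact sub_eq_zero.2 hrr
      obtain ⟨m, hm, hmB⟩ := htor (x r - x r')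
      have h1 : m • (x r - x r') = 0 :=
        eq_zero_of_mem_closure hb hmB (by rw [map_nsmul, h0, smul_zero])
      apply hx r r' hne m
      rw [hmemL]
      obtain ⟨l, hl⟩ := Nat.dvd_factorial hm le_rfl
      rw [hl, mul_comm, mul_smul, h1, smul_zero]
      exact hW.core.zero_mem
    have h2 := Cardinal.mk_le_of_injective (α := ULift.{u} (ℕ → Bool))
      (hinj.comp ULift.down_injective)
    rw [Cardinal.mk_uLift, ← continuum_eq_lift] at h2
    exact absurd h2 (not_le.2 (mk_finsupp_lt mk_rat_le hlt))
  · push Not at hL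
    obtain ⟨k, hk⟩ := hL
    have hbd : ∀ g : G, (M * (k.factorial * Nat.card (G ⧸ L k))) • g = 0 := by
      intro g
      have h1 : Nat.card (G ⧸ L k) • (QuotientAddGroup.mk g : G ⧸ L k) = 0 := card_nsmul_eq_zero'
      rw [← QuotientAddGroup.mk_nsmul, QuotientAddGroup.eq_zero_iff, hmemL] at h1
      rw [mul_smul, mul_smul]
      exact hMc _ h1
    have hpos : 0 < M * (k.factorial * Nat.card (G ⧸ L k)) :=
      Nat.mul_pos hM (Nat.mul_pos k.factorial_pos Nat.card_pos)
    exact absurd (continuum_le_mk hG) (not_le.2 (mk_lt_of_bounded hsoc hpos hbd))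

end Pool.Agent.H80Pseudo
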