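import Mathlib
import Pool.Agent.Lib.H80Pseudo.CaseC2

/-!
# Case (c), part 3: upper bound for the torsion part
-/

open Set Filter Topology Cardinal

universe u

namespace Pool.Agent.H80Pseudo

/-- cardinality of closures in Hausdorff spaces -/
theorem mk_closure_le_two_pow {X : Type u} [TopologicalSpace X] [T2Space X] (D : Set X) :
    #(closure D) ≤ 2 ^ (2 ^ #D : Cardinal.{u}) := by
  let F : closure D → Set (Set D) := fun x => {s | ∃ U ∈ 𝓝 (x : X), s = (↑) ⁻¹' U}
  have hF : Function.Injective F := by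
    rintro ⟨x, hx⟩ ⟨y, hy⟩ hxy
    by_contra hne
    have hne' : x ≠ y := fun h => hne (Subtype.ext h)
    obtain ⟨U, V, hU, hV, hxU, hyV, hUV⟩ := t2_separation hne'
    have h1 : ((↑) : D → X) ⁻¹' U ∈ F ⟨x, hx⟩ := ⟨U, hU.mem_nhds hxU, rfl⟩
    rw [hxy] at h1
    obtain ⟨V', hV', hUV'⟩ := h1
    obtain ⟨z, hz, hzD⟩ := mem_closure_iff_nhds.1 hy (V ∩ V') (inter_mem (hV.mem_nhds hyV) hV')
    have h2 : (⟨z, hzD⟩ : D) ∈ ((↑) : D → X) ⁻¹' V' := hz.2
    rw [← hUV'] at h2
    exact Set.disjoint_left.1 hUV h2 hz.1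
  refine (Cardinal.mk_le_of_injective hF).trans ?_
  rw [Cardinal.mk_set, Cardinal.mk_set]

variable {G : Type u} [AddCommGroup G]

/-- the torsion elements -/
def tor (G : Type*) [AddCommGroup G] : AddSubgroup G where
  carrier := {g | ∃ n : ℕ, 0 < n ∧ n • g = 0}
  zero_mem' := ⟨1, one_pos, smul_zero _⟩
  add_mem' := by
    rintro a b ⟨n, hn, hna⟩ ⟨m, hm, hmb⟩
    refine ⟨n * m, Nat.mul_pos hn hm, ?_⟩
    rw [smul_add, mul_comm, mul_smul, hna, smul_zero, mul_comm, mul_smul, hmb, smul_zero, add_zero]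
  neg_mem' := by
    rintro a ⟨n, hn, hna⟩
    exact ⟨n, hn, by rw [smul_neg, hna, neg_zero]⟩

theorem mem_tor {g : G} : g ∈ tor G ↔ ∃ n : ℕ, 0 < n ∧ n • g = 0 := Iff.rfl

theorem tor_of_smul {g : G} {n : ℕ} (hn : 0 < n) (h : n • g ∈ tor G) : g ∈ tor G := by
  obtain ⟨m, hm, hmg⟩ := h
  exact ⟨m * n, Nat.mul_pos hm hn, by rw [mul_smul, hmg]⟩

/-- A small subgroup modulo which the torsion part is divisible. -/
theorem exists_dense_torsion (hsoc : ∀ p : ℕ, p.Prime → ∀ i, #(socQ G p i) ≤ Cardinal.continuum.{u}) :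
    ∃ B : AddSubgroup G, #B ≤ Cardinal.continuum.{u} ∧ B ≤ tor G ∧
      ∀ n : ℕ, 0 < n → ∀ z ∈ tor G, ∃ b ∈ B, ∃ w ∈ tor G, z = b + n • w := by
  classical
  have hrep : ∀ (p i : ℕ) (q : socQ G p i), ∃ y : G, ∃ hy : p ^ i • y ∈ soc G p i,
      (QuotientAddGroup.mk (⟨p ^ i • y, hy⟩ : soc G p i) : socQ G p i) = q := by
    intro p i q
    obtain ⟨x, hx⟩ := QuotientAddGroup.mk_surjective q
    obtain ⟨y, hy⟩ := (mem_soc.1 x.2).2
    have e : (⟨p ^ i • y, hy ▸ x.2⟩ : soc G p i) = x := Subtype.ext hy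
    exact ⟨y, hy ▸ x.2, by rw [e, hx]⟩
  choose y hy hyq using hrep
  let Y : Set G := ⋃ p : {p : ℕ // p.Prime}, ⋃ i : ℕ, range (y p i)
  have hY : #Y ≤ Cardinal.continuum.{u} := by
    have h1 : Cardinal.lift.{0} #Y ≤ _ := Cardinal.mk_iUnion_le_lift
      (fun p : {p : ℕ // p.Prime} => ⋃ i : ℕ, range (y p i))
    rw [Cardinal.lift_uzero] at h1
    refine h1.trans ?_
    have h2 : ∀ p : {p : ℕ // p.Prime}, #(⋃ i : ℕ, range (y p i) : Set G) ≤ Cardinal.continuum.{u} := by
      intro p
      have h3 : Cardinal.lift.{0} #(⋃ i : ℕ, range (y p i) : Set G) ≤ _ :=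
        Cardinal.mk_iUnion_le_lift (fun i : ℕ => range (y p i))
      rw [Cardinal.lift_uzero] at h3
      refine h3.trans ?_
      calc _ ≤ Cardinal.aleph0.{u} * Cardinal.continuum.{u} := by
            apply mul_le_mul'
            · simp
            · apply ciSup_le'
              intro i
              rw [Cardinal.lift_uzero]
              exact Cardinal.mk_range_le.trans (hsoc p p.2 i)
        _ = _ := Cardinal.aleph0_mul_continuum
    calc _ ≤ Cardinal.aleph0.{u} * Cardinal.continuum.{u} := by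
          apply mul_le_mul'
          · rw [Cardinal.lift_le_aleph0]; exact Cardinal.mk_le_aleph0
          · apply ciSup_le'
            intro p
            rw [Cardinal.lift_uzero]
            exact h2 p
      _ = _ := Cardinal.aleph0_mul_continuum
  refine ⟨AddSubgroup.closure Y, ?_, ?_, ?_⟩
  · have h1 : Y = range ((↑) : Y → G) := Subtype.range_coe.symm
    rw [h1]
    exact (mk_closure_range_le _).trans (mk_finsupp_le mk_int_le hY)
  · rw [AddSubgroup.closure_le]
    intro z hz
    simp only [Y, mem_iUnion, mem_range] at hz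
    obtain ⟨p, i, q, rfl⟩ := hz
    refine ⟨p * p ^ i, Nat.mul_pos p.2.pos (pow_pos p.2.pos _), ?_⟩
    rw [mul_smul]
    exact (mem_soc.1 (hy p i q)).1
  · set B := AddSubgroup.closure Y
    have hyB : ∀ (p : ℕ) (_ : p.Prime) (i : ℕ) (q : socQ G p i), y p i q ∈ B := by
      intro p hp i q
      apply AddSubgroup.subset_closure
      exact mem_iUnion.2 ⟨⟨p, hp⟩, mem_iUnion.2 ⟨i, q, rfl⟩⟩
    -- primary elements
    have hprim : ∀ (p : ℕ) (_ : p.Prime) (k : ℕ), ∀ z : G, p ^ k • z = 0 →
        ∃ b ∈ B, ∃ w ∈ tor G, z = b + p • w := by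
      intro p hp k
      induction k with
      | zero =>
        intro z hz
        rw [pow_zero, one_smul] at hz
        exact ⟨0, B.zero_mem, 0, (tor G).zero_mem, by rw [hz]; simp⟩
      | succ k ih =>
        intro z hz
        have hzs : p ^ k • z ∈ soc G p k := by
          refine mem_soc.2 ⟨?_, z, rfl⟩
          rw [smul_smul, ← pow_succ']; exact hz
        set q : socQ G p k := QuotientAddGroup.mk ⟨p ^ k • z, hzs⟩ with hq
        have h1 := hyq p k q
        rw [hq, QuotientAddGroup.eq, AddSubgroup.mem_addSubgroupOf] at h1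
        have h2 : p ^ k • z - p ^ k • y p k q ∈ soc G p (k + 1) := by
          have e : p ^ k • z - p ^ k • y p k q = -(p ^ k • y p k q) + p ^ k • z := by abel
          rw [e]
          exact h1
        obtain ⟨h3, w, hw⟩ := mem_soc.1 h2
        have hwt : w ∈ tor G := by
          refine ⟨p * p ^ (k + 1), Nat.mul_pos hp.pos (pow_pos hp.pos _), ?_⟩
          rw [mul_smul, hw]; exact h3
        obtain ⟨b', hb', w', hw', hz'⟩ := ih (z - y p k q - p • w) (by
          rw [smul_sub, smul_sub, ← hw, smul_smul, ← pow_succ, sub_self])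
        refine ⟨y p k q + b', B.add_mem (hyB p hp k q) hb', w + w', (tor G).add_mem hwt hw', ?_⟩
        have e : z = y p k q + p • w + (z - y p k q - p • w) := by abel
        rw [e, hz', smul_add]
        abel
    have hprime : ∀ (p : ℕ) (_ : p.Prime), ∀ z ∈ tor G, ∃ b ∈ B, ∃ w ∈ tor G, z = b + p • w := by
      intro p hp z hz
      obtain ⟨n, hn, hnz⟩ := hz
      obtain ⟨a, m, hm, hnm⟩ := Nat.exists_eq_pow_mul_and_not_dvd hn.ne' p hp.ne_one
      obtain ⟨b, hb, w, hw, hbw⟩ := hprim p hp a (m • z) (by rw [smul_smul, ← hnm]; exact hnz)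
      have hcop : IsCoprime (m : ℤ) (p : ℤ) :=
        Nat.isCoprime_iff_coprime.2 ((Nat.Prime.coprime_iff_not_dvd hp).2 hm).symm
      obtain ⟨u, v, huv⟩ := hcop
      refine ⟨u • b, B.zsmul_mem hb u, u • w + v • z,
        (tor G).add_mem ((tor G).zsmul_mem hw u) ((tor G).zsmul_mem ⟨n, hn, hnz⟩ v), ?_⟩
      have e : z = u • (m • z) + v • (p • z) := by
        have h5 : (u * m + v * p) • z = z := by rw [huv, one_smul]
        rw [add_smul, mul_smul, mul_smul, natCast_zsmul, natCast_zsmul] at h5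
        exact h5.symm
      conv_lhs => rw [e, hbw]
      rw [smul_add, smul_add, smul_comm u p w, smul_comm v p z]
      abel
    intro n
    induction n using induction_on_primes with
    | zero => intro h; exact absurd h (lt_irrefl _)
    | one =>
      intro _ z hz
      exact ⟨0, B.zero_mem, z, hz, by simp⟩
    | prime_mul p a hp ih =>
      intro hpa z hz
      have ha : 0 < a := by
        rcases Nat.eq_zero_or_pos a with h0 | h0
        · rw [h0, mul_zero] at hpa; exact absurd hpa (lt_irrefl _)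
        · exact h0
      obtain ⟨b, hb, w, hw, h1⟩ := ih ha z hz
      obtain ⟨b', hb', w', hw', h2⟩ := hprime p hp w hw
      refine ⟨b + a • b', B.add_mem hb (B.nsmul_mem hb' a), w', hw', ?_⟩
      rw [h1, h2, smul_add, smul_smul, mul_comm p a]
      abel

/-- bound for the torsion part in terms of multiples -/
theorem mk_tor_le (hsoc : ∀ p : ℕ, p.Prime → ∀ i, #(socQ G p i) ≤ Cardinal.continuum.{u}) (k : ℕ) :
    #(tor G) ≤ Cardinal.continuum.{u} * #(range fun x : G => k.factorial • x) := by
  classical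
  obtain ⟨B, hB, -, hBd⟩ := exists_dense_torsion hsoc
  have hstep : ∀ (n : ℕ) (z : tor G), ∃ (b : B) (w : tor G), (z : G) = b + (n + 1) • (w : G) := by
    intro n z
    obtain ⟨b, hb, w, hw, h⟩ := hBd (n + 1) (Nat.succ_pos n) z z.2
    exact ⟨⟨b, hb⟩, ⟨w, hw⟩, h⟩
  choose β ω hβω using hstep
  let zs : tor G → ℕ → tor G := fun z n => Nat.rec z (fun n w => ω n w) n
  have hzs0 : ∀ z, zs z 0 = z := fun z => rfl
  have hzs : ∀ z n, zs z (n + 1) = ω n (zs z n) := fun z n => rfl
  let code : tor G → ℕ → B := fun z n => β n (zs z n)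
  have hsec : ∀ c : ℕ → B, ∃ s : tor G, (∃ z, code z = c) → code s = c := by
    intro c
    by_cases h : ∃ z, code z = c
    · obtain ⟨z, hz⟩ := h
      exact ⟨z, fun _ => hz⟩
    · exact ⟨0, fun h' => absurd h' h⟩
  choose s hs using hsec
  have hchain : ∀ z z' : tor G, code z = code z' →
      ∃ x : G, k.factorial • x = (z : G) - (z' : G) := by
    intro z z' hzz
    let u : ℕ → G := fun n => (zs z n).1
    let u' : ℕ → G := fun n => (zs z' n).1
    have h1 : ∀ n, u n - u' n = (n + 1) • (u (n + 1) - u' (n + 1)) := by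
      intro n
      have e1 : u n = (β n (zs z n) : G) + (n + 1) • u (n + 1) := hβω n (zs z n)
      have e2 : u' n = (β n (zs z' n) : G) + (n + 1) • u' (n + 1) := hβω n (zs z' n)
      have e3 : (β n (zs z n) : G) = (β n (zs z' n) : G) :=
        congrArg (fun w : B => (w : G)) (congrFun hzz n)
      rw [e1, e2, e3, smul_sub]
      abel
    have h2 : ∀ n, (z : G) - (z' : G) = n.factorial • (u n - u' n) := by
      intro n
      induction n with
      | zero =>
        rw [Nat.factorial_zero, one_smul]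
        rfl
      | succ n ih =>
        rw [ih, h1 n, smul_smul, Nat.factorial_succ, mul_comm]
    exact ⟨_, (h2 k).symm⟩
  let F : tor G → (ℕ → B) × (range fun x : G => k.factorial • x) := fun z =>
    (code z, ⟨(z : G) - (s (code z) : G), hchain z (s (code z)) (hs (code z) ⟨z, rfl⟩).symm⟩)
  have hF : Function.Injective F := by
    intro z z' h
    have e1 : code z = code z' := congrArg Prod.fst h
    have e2 : (z : G) - (s (code z) : G) = (z' : G) - (s (code z') : G) :=
      congrArg (fun w => ((w.2 : (range fun x : G => k.factorial • x)) : G)) h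
    rw [e1] at e2
    exact Subtype.ext (sub_left_injective e2)
  refine (Cardinal.mk_le_of_injective hF).trans ?_
  rw [Cardinal.mk_prod, Cardinal.lift_id, Cardinal.lift_id]
  exact mul_le_mul' (mk_fun_nat_le hB) le_rfl

theorem continuum_le_two_pow : Cardinal.continuum.{u} ≤ 2 ^ (2 ^ Cardinal.continuum.{u} : Cardinal.{u}) :=
  (Cardinal.cantor _).le.trans (Cardinal.cantor _).le

variable [TopologicalSpace G] [IsTopologicalAddGroup G] [T2Space G]

theorem mk_tor_le_two_pow (hG : PseudocompactSp G) {ι : Type u} (b : ι → G)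
    (htor : ∀ g, ∃ n : ℕ, 0 < n ∧ n • g ∈ AddSubgroup.closure (range b))
    (hι : #ι ≤ Cardinal.continuum.{u})
    (hsoc : ∀ p : ℕ, p.Prime → ∀ i, #(socQ G p i) ≤ Cardinal.continuum.{u}) :
    #(tor G) ≤ 2 ^ (2 ^ Cardinal.continuum.{u} : Cardinal.{u}) := by
  classical
  set B := AddSubgroup.closure (range b) with hB
  have hBle : #(B : Set G) ≤ Cardinal.continuum.{u} :=
    (mk_closure_range_le b).trans (mk_finsupp_le mk_int_le hι)
  let A : ℕ → AddSubgroup G := fun n => B.comap (nsmulAddMonoidHom n.factorial : G →+ G)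
  have hmemA : ∀ n g, g ∈ A n ↔ n.factorial • g ∈ B := fun n g => Iff.rfl
  have hA : ∀ g, ∃ n, g ∈ A n := by
    intro g
    obtain ⟨n, hn, hng⟩ := htor g
    refine ⟨n, ?_⟩
    rw [hmemA]
    obtain ⟨m, hm⟩ := Nat.dvd_factorial hn le_rfl
    rw [hm, mul_comm, mul_smul]
    exact B.nsmul_mem hng m
  obtain ⟨n, W, hW, hWn, hD⟩ := hG.exists_dense_layer A hA
  have hcl : ∀ x ∈ hW.core, n.factorial • x ∈ closure (B : Set G) := by
    intro x hx
    rw [mem_closure_iff_nhds]
    intro U hU
    have hV : {y : G | n.factorial • (y + x) ∈ U} ∈ 𝓝 (0 : G) := by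
      have hcont : Continuous fun y : G => n.factorial • (y + x) := by fun_prop
      have h1 : (fun y : G => n.factorial • (y + x)) ⁻¹' U ∈ 𝓝 (0 : G) := by
        apply hcont.continuousAt.preimage_mem_nhds
        simpa using hU
      exact h1
    obtain ⟨a, haA, -, ha⟩ := hD (fun _ => {y : G | n.factorial • (y + x) ∈ U}) (fun _ => hV) x hx
    refine ⟨n.factorial • a, ?_, haA⟩
    have h2 : n.factorial • (a - x + x) ∈ U := ha 0
    rwa [sub_add_cancel] at h2
  have hclle : #(closure (B : Set G)) ≤ 2 ^ (2 ^ Cardinal.continuum.{u} : Cardinal.{u}) := by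
    refine (mk_closure_le_two_pow _).trans ?_
    apply Cardinal.power_le_power_left two_ne_zero
    exact Cardinal.power_le_power_left two_ne_zero hBle
  have hrange : #(range fun x : G => n.factorial • x) ≤
      #(G ⧸ hW.core) * #(closure (B : Set G)) := by
    have hch : ∀ y : (range fun x : G => n.factorial • x), ∃ x : G, n.factorial • x = y := fun y => y.2
    choose x hx using hch
    have hq : ∀ g : G, g - (QuotientAddGroup.mk g : G ⧸ hW.core).out ∈ hW.core := by
      intro g
      have h1 : (QuotientAddGroup.mk (QuotientAddGroup.mk g : G ⧸ hW.core).out : G ⧸ hW.core) =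
          QuotientAddGroup.mk g := QuotientAddGroup.out_eq' _
      rw [QuotientAddGroup.eq] at h1
      rwa [neg_add_eq_sub] at h1
    let F : (range fun x : G => n.factorial • x) → (G ⧸ hW.core) × closure (B : Set G) := fun y =>
      (QuotientAddGroup.mk (x y),
        ⟨n.factorial • (x y - (QuotientAddGroup.mk (x y) : G ⧸ hW.core).out), hcl _ (hq _)⟩)
    have hF : Function.Injective F := by
      intro y y' h
      have e1 : (QuotientAddGroup.mk (x y) : G ⧸ hW.core) = QuotientAddGroup.mk (x y') :=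
        congrArg Prod.fst h
      have e2 : n.factorial • (x y - (QuotientAddGroup.mk (x y) : G ⧸ hW.core).out) =
          n.factorial • (x y' - (QuotientAddGroup.mk (x y') : G ⧸ hW.core).out) :=
        congrArg (fun w => ((w.2 : closure (B : Set G)) : G)) h
      rw [e1, smul_sub, smul_sub, hx, hx] at e2
      exact Subtype.ext (sub_left_injective e2)
    refine (Cardinal.mk_le_of_injective hF).trans ?_
    rw [Cardinal.mk_prod, Cardinal.lift_id, Cardinal.lift_id]
  have hR : #(G ⧸ hW.core) ≤ Cardinal.continuum.{u} := hW.mk_quotient_core_le (hG.cptChn hW hWn)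
  set κ : Cardinal.{u} := 2 ^ (2 ^ Cardinal.continuum.{u} : Cardinal.{u}) with hκ
  have hκc : Cardinal.continuum.{u} ≤ κ := continuum_le_two_pow
  have hκ0 : Cardinal.aleph0.{u} ≤ κ := Cardinal.aleph0_le_continuum.trans hκc
  calc #(tor G) ≤ Cardinal.continuum.{u} * #(range fun x : G => n.factorial • x) := mk_tor_le hsoc n
    _ ≤ κ * (κ * κ) := by
        apply mul_le_mul' hκc
        exact hrange.trans (mul_le_mul' (hR.trans hκc) hclle)
    _ = κ := by rw [Cardinal.mul_eq_self hκ0, Cardinal.mul_eq_self hκ0]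

end Pool.Agent.H80Pseudo
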