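import Mathlib
import Pool.Agent.Lib.H80Pseudo.CaseC3

/-!
# Case (c), part 4: separating characters and the end of the proof
-/

open Set Filter Topology Cardinal

universe u

namespace Pool.Agent.H80Pseudo

theorem smul_one_div_ne_zero {p : ℕ} (hp : 0 < p) {n : ℕ} (hn : 0 < n) (hnp : n < p) :
    n • (((1 : ℝ) / p : ℝ) : Circ) ≠ 0 := by
  intro h
  have h1 : addOrderOf (((1 : ℝ) / p : ℝ) : Circ) = p := AddCircle.addOrderOf_period_div hp
  have h2 := addOrderOf_dvd_of_nsmul_eq_zero h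
  rw [h1] at h2
  exact absurd (Nat.le_of_dvd hn h2) (not_le.2 hnp)

theorem smul_one_div {p : ℕ} (hp : 0 < p) : p • (((1 : ℝ) / p : ℝ) : Circ) = 0 := by
  have h1 : addOrderOf (((1 : ℝ) / p : ℝ) : Circ) = p := AddCircle.addOrderOf_period_div hp
  have h2 := addOrderOf_nsmul_eq_zero (((1 : ℝ) / p : ℝ) : Circ)
  rwa [h1] at h2

theorem mk_set_set_real :
    Cardinal.lift.{u} #(Set (Set ℝ)) = 2 ^ (2 ^ Cardinal.continuum.{u} : Cardinal.{u}) := by
  rw [Cardinal.mk_set, Cardinal.mk_set, Cardinal.mk_real]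
  simp

/-- `2 ^ 𝔠` characters separating the points of an elementary group -/
theorem exists_sep_aux {p : ℕ} [Fact p.Prime] {V : Type u} [AddCommGroup V] [Module (ZMod p) V]
    (hV : #V ≤ 2 ^ (2 ^ Cardinal.continuum.{u} : Cardinal.{u})) :
    ∃ l : Finset (Set ℝ) × Finset (Set ℝ) → (V →+ Circ), ∀ v ≠ 0, ∃ i, l i v ≠ 0 := by
  classical
  have hp : p.Prime := Fact.out
  let X := Module.Basis.ofVectorSpaceIndex (ZMod p) V
  let B : Module.Basis X (ZMod p) V := Module.Basis.ofVectorSpace (ZMod p) V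
  have hX : #X ≤ Cardinal.lift.{u} #(Set (Set ℝ)) := by
    rw [mk_set_set_real]
    exact (Cardinal.mk_le_of_injective B.injective).trans hV
  rw [← Cardinal.mk_uLift] at hX
  obtain ⟨em'⟩ := (Cardinal.le_def _ _).1 hX
  let em : X → Set (Set ℝ) := fun x => (em' x).down
  have hem : Function.Injective em := fun x y h => em'.injective (ULift.ext _ _ h)
  let c : Finset (Set ℝ) × Finset (Set ℝ) → X → Circ := fun i x =>
    if i.1.filter (fun s => s ∈ em x) = i.2 then (((1 : ℝ) / p : ℝ) : Circ) else 0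
  have hc : ∀ i x, p • c i x = 0 := by
    intro i x
    simp only [c]
    split_ifs
    · exact smul_one_div hp.pos
    · exact smul_zero _
  choose h hh using fun i => exists_hom_finsupp p (c i) (hc i)
  refine ⟨fun i => (h i).comp B.repr.toAddEquiv.toAddMonoidHom, ?_⟩
  intro v hv
  have hrv : B.repr v ≠ 0 := by
    intro h0
    exact hv (B.repr.map_eq_zero_iff.1 h0)
  obtain ⟨x₀, hx₀⟩ := Finsupp.support_nonempty_iff.2 hrv
  have hsep : ∀ x : X, ∃ s : Set ℝ, x ≠ x₀ → ¬ (s ∈ em x ↔ s ∈ em x₀) := by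
    intro x
    by_cases hx : x = x₀
    · exact ⟨∅, fun h' => absurd hx h'⟩
    · have hne : em x ≠ em x₀ := fun h' => hx (hem h')
      have : ¬ ∀ s, s ∈ em x ↔ s ∈ em x₀ := fun h' => hne (Set.ext h')
      push Not at this
      obtain ⟨s, hs⟩ := this
      refine ⟨s, fun _ => ?_⟩
      tauto
  choose sp hsp using hsep
  set E : Finset (Set ℝ) := (B.repr v).support.image sp with hE
  set E' : Finset (Set ℝ) := E.filter (fun s => s ∈ em x₀) with hE'
  refine ⟨(E, E'), ?_⟩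
  have hsingle : ∀ (x : X) (a : ZMod p), h (E, E') (Finsupp.single x a) = a.val • c (E, E') x := by
    intro x a
    have e : Finsupp.single x a = a.val • Finsupp.single x (1 : ZMod p) := by
      rw [Finsupp.smul_single, nsmul_eq_mul, mul_one, ZMod.natCast_zmod_val]
    rw [e, map_nsmul, hh]
  have hval : h (E, E') (B.repr v) = ((B.repr v) x₀).val • (((1 : ℝ) / p : ℝ) : Circ) := by
    conv_lhs => rw [← Finsupp.sum_single (B.repr v)]
    rw [Finsupp.sum, map_sum, Finset.sum_eq_single x₀]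
    · rw [hsingle]
      simp only [c]
      rw [if_pos hE'.symm]
    · intro x hx hxx
      rw [hsingle]
      simp only [c]
      rw [if_neg, smul_zero]
      intro heq
      apply hsp x hxx
      have h1 : sp x ∈ E := Finset.mem_image_of_mem _ hx
      have h2 : sp x ∈ E.filter (fun s => s ∈ em x) ↔ sp x ∈ E.filter (fun s => s ∈ em x₀) := by
        rw [heq, hE']
      simpa [h1] using h2
    · intro hx
      exact absurd hx₀ hx
  change h (E, E') (B.repr v) ≠ 0
  rw [hval]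
  have hne0 : (B.repr v) x₀ ≠ 0 := Finsupp.mem_support_iff.1 hx₀
  apply smul_one_div_ne_zero hp.pos
  · exact Nat.pos_of_ne_zero ((ZMod.val_ne_zero _).2 hne0)
  · exact ZMod.val_lt _

theorem exists_sep_prime {p : ℕ} (hp : p.Prime) {V : Type u} [AddCommGroup V]
    (hpV : ∀ v : V, p • v = 0) (hV : #V ≤ 2 ^ (2 ^ Cardinal.continuum.{u} : Cardinal.{u})) :
    ∃ l : Finset (Set ℝ) × Finset (Set ℝ) → (V →+ Circ), ∀ v ≠ 0, ∃ i, l i v ≠ 0 :=
  @exists_sep_aux p ⟨hp⟩ V _ (AddCommGroup.zmodModule hpV) hV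

variable {G : Type u} [AddCommGroup G]

theorem psi_tor {ι : Type u} (ψ : G →+ (ι →₀ ℚ)) {g : G} (hg : g ∈ tor G) : ψ g = 0 := by
  obtain ⟨n, hn, h⟩ := hg
  have h1 : n • ψ g = 0 := by rw [← map_nsmul, h, map_zero]
  ext j
  have h2 := DFunLike.congr_fun h1 j
  rw [Finsupp.smul_apply, nsmul_eq_mul] at h2
  have h3 : ((n : ℚ)) ≠ 0 := by exact_mod_cast hn.ne'
  have h4 : (n : ℚ) * ψ g j = 0 := h2
  simpa [h3] using h4

theorem exists_sep {ι : Type u} (b : ι → G) (ψ : G →+ (ι →₀ ℚ))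
    (hb : ∀ i, ψ (b i) = Finsupp.single i 1)
    (hT : #(tor G) ≤ 2 ^ (2 ^ Cardinal.continuum.{u} : Cardinal.{u})) :
    ∃ k : Set ℝ → G →+ Circ, (∀ β i, k β (b i) = 0) ∧ ∀ g ∈ tor G, g ≠ 0 → ∃ β, k β g ≠ 0 := by
  classical
  have h1 : ∀ (p : {p : ℕ // p.Prime}) (i : Finset (Set ℝ) × Finset (Set ℝ)),
      ∃ k : G →+ Circ, (∀ i, k (b i) = 0) := fun _ _ => ⟨0, fun _ => rfl⟩
  have hsocle : ∀ p : {p : ℕ // p.Prime}, ∃ k : Finset (Set ℝ) × Finset (Set ℝ) → G →+ Circ,
      (∀ i j, k i (b j) = 0) ∧ ∀ g : G, (p : ℕ) • g = 0 → g ≠ 0 → ∃ i, k i g ≠ 0 := by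
    intro p
    have hle : soc G p 0 ≤ tor G := fun x hx => ⟨p, p.2.pos, (mem_soc.1 hx).1⟩
    have hcard : #(soc G p 0) ≤ 2 ^ (2 ^ Cardinal.continuum.{u} : Cardinal.{u}) :=
      (Cardinal.mk_le_mk_of_subset (s := (soc G p 0 : Set G)) (t := (tor G : Set G)) hle).trans hT
    obtain ⟨l, hl⟩ := exists_sep_prime p.2 (V := soc G p 0)
      (fun v => Subtype.ext (mem_soc.1 v.2).1) hcard
    -- extension
    let Φ : (ι →₀ ℤ) →+ G := Finsupp.liftAddHom fun i => (zmultiplesHom G) (b i)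
    have hΦ : ∀ j, Φ (Finsupp.single j 1) = b j := by
      intro j
      simp [Φ]
    have hΦc : ∀ c, Φ c ∈ AddSubgroup.closure (range b) := by
      intro c
      rw [mem_closure_range_iff]
      refine ⟨c, ?_⟩
      simp only [Φ, Finsupp.liftAddHom_apply]
      rfl
    let j : (soc G p 0) × (ι →₀ ℤ) →+ G :=
      ((soc G p 0).subtype.comp (AddMonoidHom.fst _ _)) + (Φ.comp (AddMonoidHom.snd _ _))
    have hψΦ : ∀ c : ι →₀ ℤ, ψ (Φ c) = c.mapRange (Int.castAddHom ℚ) (map_zero _) := by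
      intro c
      have e : ψ.comp Φ = Finsupp.mapRange.addMonoidHom (Int.castAddHom ℚ) := by
        ext i : 2
        simp [Φ, hb]
      exact DFunLike.congr_fun e c
    have hj : Function.Injective j := by
      rw [injective_iff_map_eq_zero]
      rintro ⟨v, c⟩ hvc
      have h2 : (v : G) + Φ c = 0 := hvc
      have h3 : ψ (v : G) = 0 := psi_tor ψ (hle v.2)
      have h4 : ψ (Φ c) = 0 := by
        have := congrArg ψ h2
        rwa [map_add, h3, zero_add, map_zero] at this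
      rw [hψΦ] at h4
      have h5 : c = 0 := by
        ext i
        have := DFunLike.congr_fun h4 i
        rw [Finsupp.mapRange_apply] at this
        simpa using this
      subst h5
      rw [map_zero, add_zero] at h2
      exact Prod.ext (Subtype.ext h2) rfl
    choose k hk using fun i => exists_extension j hj ((l i).comp (AddMonoidHom.fst _ _))
    refine ⟨k, ?_, ?_⟩
    · intro i m
      have h2 := hk i (0, Finsupp.single m 1)
      have e1 : j (0, Finsupp.single m 1) = b m := by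
        change ((0 : soc G p 0) : G) + Φ (Finsupp.single m 1) = _
        rw [hΦ]
        simp
      rw [e1] at h2
      rw [h2]
      change l i 0 = 0
      exact map_zero _
    · intro g hg hg0
      have hgs : g ∈ soc G p 0 := ⟨hg, g, by rw [pow_zero, one_smul]⟩
      obtain ⟨i, hi⟩ := hl ⟨g, hgs⟩ (fun h => hg0 (congrArg Subtype.val h))
      refine ⟨i, ?_⟩
      have h2 := hk i (⟨g, hgs⟩, 0)
      have e1 : j (⟨g, hgs⟩, 0) = g := by
        change g + Φ 0 = _
        rw [map_zero, add_zero]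
      rw [e1] at h2
      rw [h2]
      exact hi
  choose k hk1 hk2 using hsocle
  -- reindexing
  let I := {p : ℕ // p.Prime} × (Finset (Set ℝ) × Finset (Set ℝ))
  have hI : #I ≤ #(Set ℝ) := by
    have h0 : Cardinal.aleph0 ≤ #(Set ℝ) := by
      rw [Cardinal.mk_set]
      exact (Cardinal.aleph0_le_mk ℝ).trans (Cardinal.cantor _).le
    have h2 : #(Finset (Set ℝ)) = #(Set ℝ) := by
      have : Infinite (Set ℝ) := Cardinal.infinite_iff.2 h0
      exact Cardinal.mk_finset_of_infinite _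
    have h3 : #I = #{p : ℕ // p.Prime} * (#(Set ℝ) * #(Set ℝ)) := by
      simp only [I, Cardinal.mk_prod, Cardinal.lift_id, h2]
    rw [h3, Cardinal.mul_eq_self h0]
    calc #{p : ℕ // p.Prime} * #(Set ℝ) ≤ #(Set ℝ) * #(Set ℝ) :=
          mul_le_mul' (Cardinal.mk_le_aleph0.trans h0) le_rfl
      _ = _ := Cardinal.mul_eq_self h0
  obtain ⟨em⟩ := (Cardinal.le_def _ _).1 hI
  have hIne : Nonempty I := ⟨(⟨2, Nat.prime_two⟩, ∅, ∅)⟩
  let s : Set ℝ → I := Function.invFun em
  have hs : Function.Surjective s := Function.invFun_surjective em.injective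
  refine ⟨fun β => k (s β).1 (s β).2, fun β i => hk1 _ _ _, ?_⟩
  intro g hg hg0
  have hn : addOrderOf g ≠ 1 := fun h => hg0 (AddMonoid.addOrderOf_eq_one_iff.1 h)
  obtain ⟨p, hp, hpn⟩ := Nat.exists_prime_and_dvd hn
  obtain ⟨m, hm⟩ := hpn
  have hpos : 0 < addOrderOf g := by
    obtain ⟨n, hn', hng⟩ := hg
    exact addOrderOf_pos_iff.2 (isOfFinAddOrder_iff_nsmul_eq_zero.2 ⟨n, hn', hng⟩)
  have h2 : m • g ≠ 0 := by
    intro h0
    have h3 := addOrderOf_dvd_of_nsmul_eq_zero h0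
    have hm0 : 0 < m := by
      rcases Nat.eq_zero_or_pos m with h | h
      · rw [h, mul_zero] at hm; omega
      · exact h
    have h4 := Nat.le_of_dvd hm0 h3
    rw [hm] at h4
    have := hp.two_le
    nlinarith
  have h3 : p • (m • g) = 0 := by
    rw [smul_smul, ← hm]
    exact addOrderOf_nsmul_eq_zero g
  obtain ⟨i, hi⟩ := hk2 ⟨p, hp⟩ (m • g) h3 h2
  obtain ⟨β, hβ⟩ := hs (⟨p, hp⟩, i)
  refine ⟨β, fun h0 => hi ?_⟩
  rw [map_nsmul]
  have : k (s β).1 (s β).2 g = 0 := h0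
  rw [hβ] at this
  rw [this, smul_zero]

/-- **Case (c)**. -/
theorem caseC [Infinite G] [t : TopologicalSpace G] [IsTopologicalAddGroup G] [T2Space G]
    (hG : PseudocompactSp G) {ι : Type u} (b : ι → G)
    (ψ : G →+ (ι →₀ ℚ)) (hb : ∀ i, ψ (b i) = Finsupp.single i 1)
    (htor : ∀ g, ∃ n : ℕ, 0 < n ∧ n • g ∈ AddSubgroup.closure (range b))
    (hι : #ι ≤ Cardinal.continuum.{u})
    (hsoc : ∀ p : ℕ, p.Prime → ∀ i, #(socQ G p i) < Cardinal.continuum.{u}) : HasNonSel G := by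
  classical
  have hle := continuum_le_rank hG b ψ hb htor hsoc
  have hT := mk_tor_le_two_pow hG b htor hι (fun p hp i => (hsoc p hp i).le)
  obtain ⟨k, hkb, hk⟩ := exists_sep b ψ hb hT
  have hP : #(ι →₀ ℚ) ≤ Cardinal.continuum.{u} := mk_finsupp_le mk_rat_le hι
  let Φ : (ι →₀ ZMod 0) →+ (ι →₀ ℚ) := Finsupp.mapRange.addMonoidHom (Int.castAddHom ℚ)
  have hΦ : Function.Injective Φ :=
    Finsupp.mapRange_injective _ (map_zero _) Int.cast_injective
  have hΦb : ∀ i : ι, Φ (Finsupp.single i 1) = ψ (b i) := by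
    intro i
    rw [hb]
    have h1 : Φ (Finsupp.single i 1) = Finsupp.single i ((Int.castAddHom ℚ) (1:ℤ)) :=
      Finsupp.mapRange_single (hf := map_zero _)
    rw [h1]
    simp
  obtain ⟨f, g, hfg, hExt⟩ := exists_family (S := ℝ) 0 Φ hΦ (by norm_num) hP hle
    (by rw [Cardinal.mk_real])
  have hIdx := infinite_Idx (ι →₀ ℚ)
  let H : Idx (ι →₀ ℚ) ⊕ Set ℝ → G →+ Circ :=
    Sum.elim (fun α => (f α).comp ψ) (fun β => (g β).comp ψ + k β)
  have hHl : ∀ α x, H (Sum.inl α) x = f α (ψ x) := fun _ _ => rfl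
  have hHr : ∀ β x, H (Sum.inr β) x = g β (ψ x) + k β x := fun _ _ => rfl
  have htop : @IsTopologicalAddGroup G ⊤ _ :=
    @IsTopologicalAddGroup.mk G ⊤ _ (@ContinuousAdd.mk G ⊤ _ continuous_top)
      (@ContinuousNeg.mk G ⊤ _ continuous_top)
  have hps : @PseudocompactSp G ⊤ := by
    let _ : TopologicalSpace G := ⊤
    intro φ hφ
    refine ⟨|φ 0|, fun x => ?_⟩
    have hins : Inseparable x 0 := by
      rw [inseparable_iff_forall_isOpen]
      intro U hU
      rcases (TopologicalSpace.isOpen_top_iff U).1 hU with h | h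
      · simp [h]
      · simp [h]
    rw [(hins.map hφ).eq]
  refine @finish G _ ⊤ htop hps _ _ _ _ hIdx 0 (by norm_num) ψ f hExt H (fun _ _ => zero_smul _ _)
    ?_ Sum.inl Sum.inl_injective (fun _ _ => rfl) ?_
  · intro V hV A hA v _
    obtain ⟨i, hi1, hi2⟩ := hfg (Sum.inl ⁻¹' A) (hA.preimage Sum.inl_injective)
      (fun α => v (Sum.inl α)) (fun _ => zero_smul _ _) (Sum.inr ⁻¹' A)
      (hA.preimage Sum.inr_injective) (fun β => v (Sum.inr β)) (fun _ => zero_smul _ _)
    refine ⟨b i, ?_, ?_⟩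
    · intro n
      have h1 := hV n
      rw [_root_.nhds_top, Filter.mem_top] at h1
      rw [h1]
      trivial
    · rintro (α | β) hα
      · rw [hHl, ← hΦb]
        exact hi1 α hα
      · rw [hHr, ← hΦb, hkb, add_zero]
        exact hi2 β hα
  · intro x hx
    right
    by_cases hψ : ψ x = 0
    · have hxt : x ∈ tor G := by
        obtain ⟨n, hn, hnx⟩ := htor x
        exact ⟨n, hn, eq_zero_of_mem_closure hb hnx (by rw [map_nsmul, hψ, smul_zero])⟩
      obtain ⟨β, hβ⟩ := hk x hxt hx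
      refine ⟨Sum.inr β, ?_⟩
      rw [hHr, hψ, map_zero, zero_add]
      exact hβ
    · obtain ⟨φ, hφ⟩ := exists_character hψ
      obtain ⟨α, hα⟩ := hExt φ (fun _ => ψ x)
      refine ⟨Sum.inl α, ?_⟩
      rw [hHl, hα 0]
      exact hφ

/-- **Main theorem.** -/
theorem hasNonSel_of_pseudocompact [Infinite G] [t : TopologicalSpace G] [IsTopologicalAddGroup G]
    [T2Space G] (hG : PseudocompactSp G) : HasNonSel G := by
  classical
  obtain ⟨ι, b, ψ, hb, htor⟩ := exists_psi G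
  rcases lt_or_ge Cardinal.continuum.{u} #ι with h | h
  · exact caseA hG b ψ hb h
  · by_cases h2 : ∃ p : ℕ, p.Prime ∧ ∃ i, Cardinal.continuum.{u} ≤ #(socQ G p i)
    · obtain ⟨p, hp, i, hi⟩ := h2
      exact caseB hG hp i hi
    · push Not at h2
      exact caseC hG b ψ hb htor h h2

end Pool.Agent.H80Pseudo
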